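import Pool.Agent.Q192.IA.Hit

/-!
# Sequences in separable infinite-dimensional spaces
-/

open Filter Topology Set unitInterval

namespace Pool.Agent.Q192.IA

variable {𝕜 X : Type*} [RCLike 𝕜] [NormedAddCommGroup X] [NormedSpace 𝕜 X]

/-- a linearly independent sequence in the unit ball with dense span -/
lemma exists_basis_seq (hsep : TopologicalSpace.SeparableSpace X)
    (hinf : ¬ FiniteDimensional 𝕜 X) : ∃ x : ℕ → X, LinearIndependent 𝕜 x ∧ (∀ i, ‖x i‖ ≤ 1) ∧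
      Dense (Submodule.span 𝕜 (range x) : Set X) := by
  obtain ⟨s, hs1, hs2⟩ := TopologicalSpace.exists_countable_dense X
  obtain ⟨B, hBs, hBspan, hB⟩ := exists_linearIndependent 𝕜 s
  have hBd : Dense (Submodule.span 𝕜 B : Set X) := by
    rw [hBspan]
    exact hs2.mono Submodule.subset_span
  have hBc : Countable B := (hs1.mono hBs).to_subtype
  have hBi : Infinite B := by
    by_contra h
    rw [not_infinite_iff_finite] at h
    apply hinf
    have : FiniteDimensional 𝕜 (Submodule.span 𝕜 B) :=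
      FiniteDimensional.span_of_finite 𝕜 (Set.toFinite B)
    have h1 : IsClosed (Submodule.span 𝕜 B : Set X) := Submodule.closed_of_finiteDimensional _
    have h2 : Submodule.span 𝕜 B = ⊤ := by
      rw [← SetLike.coe_set_eq, ← h1.closure_eq, hBd.closure_eq]
      rfl
    rw [h2] at this
    exact Module.finite_def.2 (Module.Finite.iff_fg.1 this)
  obtain ⟨hden⟩ := nonempty_denumerable B
  let e : ℕ ≃ B := (Denumerable.eqv B).symm
  have hBe : LinearIndependent 𝕜 (fun n => (e n : X)) := hB.comp e e.injective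
  have hne : ∀ n, (e n : X) ≠ 0 := fun n => hBe.ne_zero n
  have hu : ∀ n, ((‖(e n : X)‖ : ℝ) : 𝕜)⁻¹ ≠ 0 := fun n => by
    have := norm_ne_zero_iff.2 (hne n)
    exact inv_ne_zero (RCLike.ofReal_ne_zero.2 this)
  refine ⟨fun n => ((‖(e n : X)‖ : ℝ) : 𝕜)⁻¹ • (e n : X), ?_, fun n => ?_, ?_⟩
  · exact hBe.units_smul (fun n => Units.mk0 _ (hu n))
  · rw [norm_smul, norm_inv, RCLike.norm_ofReal, abs_norm,
      inv_mul_cancel₀ (norm_ne_zero_iff.2 (hne n))]
  · refine hBd.mono ?_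
    rw [SetLike.coe_subset_coe, Submodule.span_le]
    intro v hv
    have h1 : (e (e.symm ⟨v, hv⟩) : X) = v := by rw [Equiv.apply_symm_apply]
    have h2 : v = ((‖v‖ : ℝ) : 𝕜) • (((‖v‖ : ℝ) : 𝕜)⁻¹ • v) := by
      have h3 : v ≠ 0 := h1 ▸ hne _
      rw [smul_smul, mul_inv_cancel₀ (RCLike.ofReal_ne_zero.2 (norm_ne_zero_iff.2 h3)), one_smul]
    rw [h2]
    refine Submodule.smul_mem _ _ (Submodule.subset_span ⟨e.symm ⟨v, hv⟩, ?_⟩)
    simp only [h1]

/-- a norm one functional vanishing on a finite set -/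
lemma exists_annih (hinf : ¬ FiniteDimensional 𝕜 X) (F : Finset X) :
    ∃ e : StrongDual 𝕜 X, ‖e‖ = 1 ∧ ∀ v ∈ F, e v = 0 := by
  have hfd : FiniteDimensional 𝕜 (Submodule.span 𝕜 (F : Set X)) :=
    FiniteDimensional.span_finset 𝕜 F
  have hcl : IsClosed (Submodule.span 𝕜 (F : Set X) : Set X) :=
    Submodule.closed_of_finiteDimensional _
  have hne : Submodule.span 𝕜 (F : Set X) ≠ ⊤ := by
    intro h
    rw [h] at hfd
    exact hinf (Module.finite_def.2 (Module.Finite.iff_fg.1 hfd))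
  obtain ⟨v, hv⟩ : ∃ v, v ∉ Submodule.span 𝕜 (F : Set X) := by
    by_contra hcon
    push Not at hcon
    exact hne (Submodule.eq_top_iff'.2 hcon)
  haveI : IsClosed ((Submodule.span 𝕜 (F : Set X)).toAddSubgroup : Set X) := hcl
  let S := Submodule.span 𝕜 (F : Set X)
  have hq : ‖S.mkQ v‖ ≠ 0 := by
    rw [norm_ne_zero_iff]
    intro h
    exact hv ((Submodule.Quotient.mk_eq_zero _).1 h)
  obtain ⟨g, hg1, hg2⟩ := exists_dual_vector 𝕜 (S.mkQ v) hq
  let f : StrongDual 𝕜 X := g.comp S.mkQL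
  have hfv : f v ≠ 0 := by
    change g (S.mkQ v) ≠ 0
    rw [hg2]
    exact RCLike.ofReal_ne_zero.2 hq
  have hf0 : ‖f‖ ≠ 0 := by
    intro h
    rw [norm_eq_zero] at h
    rw [h] at hfv
    exact hfv rfl
  refine ⟨((‖f‖ : ℝ) : 𝕜)⁻¹ • f, ?_, fun w hw => ?_⟩
  · rw [norm_smul, norm_inv, RCLike.norm_ofReal, abs_norm, inv_mul_cancel₀ hf0]
  · change ((‖f‖ : ℝ) : 𝕜)⁻¹ * g (S.mkQ w) = 0
    have : S.mkQ w = 0 := (Submodule.Quotient.mk_eq_zero _).2 (Submodule.subset_span hw)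
    rw [this, map_zero, mul_zero]

/-- the functionals `e N` and the vectors `u N` -/
lemma exists_en (hinf : ¬ FiniteDimensional 𝕜 X) (x : ℕ → X) {τ : ℝ} (hτ : 0 < τ) :
    ∃ (e : ℕ → StrongDual 𝕜 X) (u : ℕ → X), (∀ N, ‖e N‖ = 1) ∧ (∀ N, ‖u N‖ ≤ 1) ∧
      (∀ N, 1 - τ < RCLike.re (e N (u N))) ∧ (∀ N, ∀ i ≤ N, e N (x i) = 0) ∧
      (∀ M N, M < N → e N (u M) = 0) := by
  classical
  obtain ⟨f, hf1, hf2⟩ := exists_seq_of_forall_finset_exists
    (fun p : ℕ × X × StrongDual 𝕜 X => ‖p.2.1‖ ≤ 1 ∧ ‖p.2.2‖ = 1 ∧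
      1 - τ < RCLike.re (p.2.2 p.2.1) ∧ ∀ i ≤ p.1, p.2.2 (x i) = 0)
    (fun p q => q.2.2 p.2.1 = 0 ∧ p.1 < q.1) (by
      intro s _
      obtain ⟨e, he1, he2⟩ := exists_annih (𝕜 := 𝕜) hinf
        ((Finset.range (s.sup Prod.fst + 2)).image x ∪ s.image fun p => p.2.1)
      obtain ⟨u, hu1, hu2, -⟩ := exists_norming he1 hτ
      refine ⟨(s.sup Prod.fst + 1, u, e), ⟨hu1, he1, hu2, fun i hi => ?_⟩, fun p hp => ⟨?_, ?_⟩⟩
      · refine he2 _ (Finset.mem_union_left _ (Finset.mem_image_of_mem _ ?_))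
        rw [Finset.mem_range]
        have : i ≤ s.sup Prod.fst + 1 := hi
        omega
      · exact he2 _ (Finset.mem_union_right _ (Finset.mem_image_of_mem _ hp))
      · have : p.1 ≤ s.sup Prod.fst := Finset.le_sup (f := Prod.fst) hp
        change p.1 < s.sup Prod.fst + 1
        omega)
  have hmono : StrictMono fun n => (f n).1 := by
    refine strictMono_nat_of_lt_succ fun n => (hf2 n (n + 1) (Nat.lt_succ_self n)).2
  refine ⟨fun N => (f N).2.2, fun N => (f N).2.1, fun N => (hf1 N).2.1, fun N => (hf1 N).1,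
    fun N => (hf1 N).2.2.1, fun N i hi => (hf1 N).2.2.2 i (hi.trans (hmono.id_le N)),
    fun M N h => (hf2 M N h).1⟩

/-- weak* convergence to zero -/
lemma tendsto_en {x : ℕ → X} (hx : Dense (Submodule.span 𝕜 (range x) : Set X))
    {e : ℕ → StrongDual 𝕜 X} (he1 : ∀ N, ‖e N‖ = 1) (he2 : ∀ N, ∀ i ≤ N, e N (x i) = 0) (z : X) :
    Tendsto (fun N => e N z) atTop (𝓝 0) := by
  have h1 : ∀ p ∈ Submodule.span 𝕜 (range x), ∀ᶠ N in atTop, e N p = 0 := by
    intro p hp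
    induction hp using Submodule.span_induction with
    | mem p hp =>
      obtain ⟨i, rfl⟩ := hp
      filter_upwards [eventually_ge_atTop i] with N hN using he2 N i hN
    | zero => exact Eventually.of_forall fun N => map_zero _
    | add u v _ _ hu hv =>
      filter_upwards [hu, hv] with N h1 h2
      rw [map_add, h1, h2, add_zero]
    | smul a u _ hu =>
      filter_upwards [hu] with N h1
      rw [map_smul, h1, smul_zero]
  rw [Metric.tendsto_nhds]
  intro ε hε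
  obtain ⟨p, hp1, hp2⟩ := Metric.dense_iff.1 hx z ε hε
  filter_upwards [h1 p hp2] with N hN
  rw [dist_zero_right]
  have h2 : e N z = e N (z - p) := by rw [map_sub, hN, sub_zero]
  rw [h2]
  refine ((e N).le_opNorm _).trans_lt ?_
  rw [he1, one_mul, ← dist_eq_norm, dist_comm]
  exact hp1

/-- the dual of a separable uniformly smooth space is separable -/
lemma dual_separable (hX : UniformlySmooth 𝕜 X) (hsep : TopologicalSpace.SeparableSpace X) :
    TopologicalSpace.SeparableSpace (StrongDual 𝕜 X) := by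
  classical
  have h1 : ∀ k : ℕ, ∃ κ : ℝ, 0 < κ ∧ ∀ f g : StrongDual 𝕜 X, ‖f‖ ≤ 1 + κ → ‖g‖ ≤ 1 + κ →
      ∀ x : X, ‖x‖ ≤ 1 → 1 - κ ≤ RCLike.re (f x) → 1 - κ ≤ RCLike.re (g x) →
      ‖f - g‖ ≤ 1 / ((k : ℝ) + 1) := by
    intro k
    obtain ⟨κ, h1, -, h2⟩ := uc (𝕜 := 𝕜) (X := X) hX (ω := 1 / ((k : ℝ) + 1)) (by positivity)
    exact ⟨κ, h1, h2⟩
  choose κ hκ hUC using h1
  obtain ⟨s, hs1, hs2⟩ := TopologicalSpace.exists_countable_dense X
  have hcs : Countable s := hs1.to_subtype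
  let P : s × ℕ → StrongDual 𝕜 X → Prop := fun p y =>
    ‖y‖ ≤ 1 ∧ ‖(p.1 : X)‖ ≤ 1 ∧ 1 - κ p.2 ≤ RCLike.re (y p.1)
  let F : s × ℕ → StrongDual 𝕜 X := fun p => if h : ∃ y, P p y then h.choose else 0
  have hF : ∀ p, (∃ y, P p y) → P p (F p) := by
    intro p h
    change P p (if h : ∃ y, P p y then h.choose else 0)
    rw [dif_pos h]
    exact h.choose_spec
  have hS : TopologicalSpace.IsSeparable {y : StrongDual 𝕜 X | ‖y‖ = 1} := by
    refine ⟨range F, countable_range F, fun y hy => ?_⟩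
    have hy : ‖y‖ = 1 := hy
    rw [Metric.mem_closure_iff]
    intro ε hε
    obtain ⟨k, hk⟩ := exists_nat_one_div_lt hε
    obtain ⟨x, hx1, hx2⟩ := y.exists_lt_apply_of_lt_opNorm (r := 1 - κ k / 2)
      (by rw [hy]; linarith [hκ k])
    obtain ⟨w, hw, hw'⟩ := exists_unimod (y x)
    have hx1' : ‖w • x‖ < 1 := by rw [norm_smul, hw, one_mul]; exact hx1
    have hpos : 0 < min (κ k / 2) (1 - ‖w • x‖) := lt_min (by linarith [hκ k]) (by linarith)
    obtain ⟨v, hv1, hv2⟩ := Metric.dense_iff.1 hs2 (w • x) _ hpos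
    rw [Metric.mem_ball, dist_eq_norm] at hv1
    have a1 : ‖v - w • x‖ < κ k / 2 := hv1.trans_le (min_le_left _ _)
    have a2 : ‖v - w • x‖ < 1 - ‖w • x‖ := hv1.trans_le (min_le_right _ _)
    have hPy : P (⟨v, hv2⟩, k) y := by
      refine ⟨hy.le, ?_, ?_⟩
      · have : v = (v - w • x) + w • x := by abel
        change ‖v‖ ≤ 1
        rw [this]
        exact (norm_add_le _ _).trans (by linarith)
      · change 1 - κ k ≤ RCLike.re (y v)
        have e1 : y v = y (v - w • x) + ((‖y x‖ : ℝ) : 𝕜) := by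
          rw [map_sub, map_smul, smul_eq_mul, hw']; ring
        have e2 : ‖y (v - w • x)‖ ≤ ‖v - w • x‖ := by
          refine (y.le_opNorm _).trans ?_
          rw [hy, one_mul]
        have e3 := RCLike.abs_re_le_norm (y (v - w • x))
        rw [e1, map_add, RCLike.ofReal_re]
        have e4 := abs_le.1 (e3.trans e2)
        linarith [e4.1]
    have hPF := hF _ ⟨y, hPy⟩
    refine ⟨F (⟨v, hv2⟩, k), ⟨_, rfl⟩, ?_⟩
    rw [dist_eq_norm]
    refine lt_of_le_of_lt ?_ hk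
    exact hUC k _ _ (by linarith [hκ k, hPy.1]) (by linarith [hκ k, hPF.1]) v hPy.2.1 hPy.2.2
      hPF.2.2
  rw [← TopologicalSpace.isSeparable_univ_iff]
  have h2 : (univ : Set (StrongDual 𝕜 X)) ⊆
      (Submodule.span 𝕜 {y : StrongDual 𝕜 X | ‖y‖ = 1} : Set (StrongDual 𝕜 X)) := by
    intro y _
    by_cases hy : y = 0
    · rw [hy]; exact Submodule.zero_mem _
    · have h3 := norm_ne_zero_iff.2 hy
      have h4 : y = ((‖y‖ : ℝ) : 𝕜) • (((‖y‖ : ℝ) : 𝕜)⁻¹ • y) := by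
        rw [smul_smul, mul_inv_cancel₀ (RCLike.ofReal_ne_zero.2 h3), one_smul]
      rw [h4]
      refine Submodule.smul_mem _ _ (Submodule.subset_span ?_)
      change ‖((‖y‖ : ℝ) : 𝕜)⁻¹ • y‖ = 1
      rw [norm_smul, norm_inv, RCLike.norm_ofReal, abs_norm, inv_mul_cancel₀ h3]
  exact (TopologicalSpace.IsSeparable.span (R := 𝕜) hS).mono h2

end Pool.Agent.Q192.IA
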