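import Pool.Agent.Q192.IA.Sta
import Pool.Agent.Q192.IA.Seqs

/-!
# Avoiding a circle of functionals by a clopen set of codes
-/

open Filter Topology Set unitInterval

namespace Pool.Agent.Q192.IA

variable {𝕜 X : Type*} [RCLike 𝕜] [NormedAddCommGroup X] [NormedSpace 𝕜 X]

/-- finite patterns -/
abbrev Pat : Type := Σ m : ℕ, (Fin m → Bool)

/-- the cylinder of a pattern -/
def cyl (q : Pat) : Set Om := {c | ∀ i : Fin q.1, c i = q.2 i}

/-- finite unions of cylinders -/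
def cylU (Q : Finset Pat) : Set Om := ⋃ q ∈ Q, cyl q

lemma isClosed_cylU (Q : Finset Pat) : IsClosed (cylU Q) := by
  refine isClosed_biUnion_finset fun q _ => ?_
  have : cyl q = ⋂ i : Fin q.1, {c : Om | c i = q.2 i} := by ext c; simp [cyl]
  rw [this]
  refine isClosed_iInter fun i => ?_
  have h : Continuous fun a : Om => a i := continuous_apply (i : ℕ)
  exact (isClosed_discrete ({q.2 i} : Set Bool)).preimage h

/-- the pattern of a code -/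
def patOf (c : Om) (m : ℕ) : Pat := ⟨m, fun i => c i⟩

lemma mem_cyl_patOf {c c' : Om} {m : ℕ} : c' ∈ cyl (patOf c m) ↔ ∀ k < m, c' k = c k := by
  constructor
  · intro h k hk
    exact h ⟨k, hk⟩
  · intro h i
    exact h i i.2

lemma exists_cyl_subset {O : Set Om} (hO : IsOpen O) {c : Om} (hc : c ∈ O) :
    ∃ m, cyl (patOf c m) ⊆ O := by
  obtain ⟨J, u, h1, h2⟩ := isOpen_pi_iff.1 hO c hc
  refine ⟨J.sup id + 1, fun c' hc' => h2 fun j hj => ?_⟩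
  rw [mem_cyl_patOf] at hc'
  have h3 : j ≤ J.sup id := Finset.le_sup (f := id) hj
  rw [hc' j (by omega)]
  exact (h1 j hj).2

/-- the set `A` is `η`-dense -/
def Dn (b : Om → 𝕜) (x : ℕ → X) (r R η : ℝ) (A : Set Om) : Prop :=
  ∀ l ∈ DD b x r, ∃ l' ∈ DD b x R, l' ∈ A ∧ ‖phi b x l - phi b x l'‖ ≤ η

/-- every weak*-continuous `Ψ` avoids some small circle on some dense clopen set of codes -/
theorem avoid {b : Om → 𝕜} {x : ℕ → X} (hx : Dense (Submodule.span 𝕜 (range x) : Set X))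
    (hbc : Continuous b) (hb : ∀ a : 𝕜, ‖a‖ ≤ 1 → ∃ c, b c = a)
    (hx1 : ∀ i, ‖x i‖ ≤ 1) (hli : LinearIndependent 𝕜 x)
    (hsepY : TopologicalSpace.SeparableSpace (StrongDual 𝕜 X)) {g : StrongDual 𝕜 X} (hg : ‖g‖ = 1)
    {r R η : ℝ} (hη : 0 < η) (hR : r + η ≤ R) (hR1 : R ≤ 1) {τ₀ : ℝ} (hτ₀ : 0 < τ₀)
    {Ψ : Om → StrongDual 𝕜 X} (hΨ : ∀ z, Continuous fun c => Ψ c z) :
    ∃ z₀ : StrongDual 𝕜 X, ‖z₀‖ ≤ τ₀ ∧ ∃ Q : Finset Pat, Dn b x r R η (cylU Q) ∧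
      ∀ s ∈ cylU Q, ∀ lam : 𝕜, ‖lam‖ = 1 → Ψ s ≠ lam • z₀ := by
  classical
  have hrR : r ≤ R := by linarith
  -- a value which is not bad
  obtain ⟨c, hc, hgood⟩ : ∃ c ∈ Ioo (0 : ℝ) τ₀, ∀ l ∈ DD b x r, ∃ l' ∈ DD b x R,
      ‖phi b x l - phi b x l'‖ < η ∧ ∀ lam : 𝕜, ‖lam‖ = 1 → Ψ l' ≠ lam • ((c : 𝕜) • g) := by
    by_contra hcon
    push Not at hcon
    choose! l hl1 hl2 using hcon
    obtain ⟨d, hd⟩ := TopologicalSpace.exists_dense_seq (StrongDual 𝕜 X)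
    have h1 : ∀ c : ℝ, ∃ n, dist (phi b x (l c)) (d n) < η / 2 := fun c =>
      hd.exists_dist_lt _ (by positivity)
    choose n hn using h1
    have h2 : ¬ InjOn n (Ioo 0 τ₀) := by
      intro hinj
      have h3 : (Ioo (0 : ℝ) τ₀).Countable := by
        have := (Set.to_countable (n '' Ioo (0 : ℝ) τ₀))
        exact Set.countable_of_injective_of_countable_image hinj this
      rw [Cardinal.Real.Ioo_countable_iff] at h3
      linarith
    simp only [InjOn, not_forall] at h2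
    obtain ⟨c, hc, c', hc', hcc, hne⟩ := h2
    have h4 : ‖phi b x (l c) - phi b x (l c')‖ < η := by
      rw [← dist_eq_norm]
      have e1 := hn c
      have e2 := hn c'
      rw [← hcc, dist_comm] at e2
      have := dist_triangle (phi b x (l c)) (d (n c)) (phi b x (l c'))
      linarith
    have hm : l c' ∈ DD b x R := DD_mono hrR (hl1 c' hc')
    obtain ⟨a1, ha1, ha1'⟩ := hl2 c hc (l c') hm h4
    obtain ⟨a2, ha2, ha2'⟩ := hl2 c' hc' (l c') hm (by simpa using hη)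
    have h5 : ‖Ψ (l c')‖ = c := by
      rw [ha1', norm_smul, norm_smul, ha1, hg, RCLike.norm_ofReal, abs_of_pos hc.1]; ring
    have h6 : ‖Ψ (l c')‖ = c' := by
      rw [ha2', norm_smul, norm_smul, ha2, hg, RCLike.norm_ofReal, abs_of_pos hc'.1]; ring
    exact hne (h5.symm.trans h6)
  obtain ⟨z₀, hz₀⟩ : ∃ z₀ : StrongDual 𝕜 X, z₀ = (c : 𝕜) • g := ⟨_, rfl⟩
  rw [← hz₀] at hgood
  refine ⟨z₀, ?_, ?_⟩
  · rw [hz₀, norm_smul, hg, RCLike.norm_ofReal, abs_of_pos hc.1, mul_one]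
    exact hc.2.le
  -- the open set of good codes
  have hO : IsOpen {s : Om | ∀ lam : 𝕜, ‖lam‖ = 1 → Ψ s ≠ lam • z₀} := by
    rw [← isClosed_compl_iff]
    have h1 : IsCompact {p : Om × 𝕜 | p.2 ∈ Metric.sphere (0 : 𝕜) 1 ∧
        ∀ z : X, Ψ p.1 z = p.2 * z₀ z} := by
      have h2 : IsCompact ((univ : Set Om) ×ˢ Metric.sphere (0 : 𝕜) 1) :=
        isCompact_univ.prod (isCompact_sphere _ _)
      have h3 : IsClosed {p : Om × 𝕜 | ∀ z : X, Ψ p.1 z = p.2 * z₀ z} := by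
        have : {p : Om × 𝕜 | ∀ z : X, Ψ p.1 z = p.2 * z₀ z} =
            ⋂ z : X, {p : Om × 𝕜 | Ψ p.1 z = p.2 * z₀ z} := by ext p; simp
        rw [this]
        exact isClosed_iInter fun z => isClosed_eq ((hΨ z).comp continuous_fst)
          (continuous_snd.mul continuous_const)
      have h4 := h2.inter_right h3
      convert h4 using 1
      ext p
      simp
    have h5 := (h1.image continuous_fst).isClosed
    convert h5 using 1
    ext s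
    constructor
    · intro hs
      simp only [mem_compl_iff, mem_ofPred_eq, not_forall, not_not] at hs
      obtain ⟨lam, hlam, h⟩ := hs
      exact ⟨(s, lam), ⟨by simpa using hlam, fun z => by rw [h]; rfl⟩, rfl⟩
    · rintro ⟨⟨s', lam⟩, ⟨h1, h2⟩, rfl⟩ hcon
      refine hcon lam (by simpa using h1) ?_
      ext z
      exact h2 z
  -- transport
  have h1 : ∀ l ∈ DD b x r, ∃ q : Pat, cyl q ⊆ {s : Om | ∀ lam : 𝕜, ‖lam‖ = 1 → Ψ s ≠ lam • z₀} ∧
      ∃ U ∈ 𝓝 l, ∀ l₁ ∈ U, l₁ ∈ DD b x r → ∃ l₂ ∈ DD b x R, l₂ ∈ cyl q ∧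
        ‖phi b x l₁ - phi b x l₂‖ < η := by
    intro l hl
    obtain ⟨l', hl', hd, hl'O⟩ := hgood l hl
    obtain ⟨m, hm⟩ := exists_cyl_subset hO (show l' ∈ {s : Om | ∀ lam : 𝕜, ‖lam‖ = 1 →
      Ψ s ≠ lam • z₀} from hl'O)
    refine ⟨patOf l' m, hm, ?_⟩
    obtain ⟨U, hU, hU2⟩ := transport hx hbc hb hx1 hli hR hR1 hl hl' hd m
    refine ⟨U, hU, fun l₁ h2 h3 => ?_⟩
    obtain ⟨l₂, h4, h5, h6⟩ := hU2 l₁ h2 h3
    exact ⟨l₂, h4, mem_cyl_patOf.2 h5, h6⟩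
  choose! q hq1 U hU1 hU2 using h1
  have hcomp : IsCompact (DD b x r) := (isClosed_DD hbc r).isCompact
  obtain ⟨t, ht1, ht2⟩ := hcomp.elim_nhds_subcover U hU1
  refine ⟨t.image q, fun l hl => ?_, fun s hs => ?_⟩
  · obtain ⟨l₀, h2, h3⟩ := mem_iUnion₂.1 (ht2 hl)
    obtain ⟨l₂, h4, h5, h6⟩ := hU2 l₀ (ht1 l₀ h2) l h3 hl
    refine ⟨l₂, h4, ?_, h6.le⟩
    exact mem_iUnion₂.2 ⟨q l₀, Finset.mem_image_of_mem _ h2, h5⟩
  · obtain ⟨p, hp, hsp⟩ := mem_iUnion₂.1 hs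
    obtain ⟨l₀, h2, rfl⟩ := Finset.mem_image.1 hp
    exact hq1 l₀ (ht1 l₀ h2) hsp

end Pool.Agent.Q192.IA
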