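import Mathlib

/-!
# The Cantor set as a closed subset of the unit interval
-/

open Filter Topology Set

namespace Pool.Agent.Q192.IA

/-- a continuous injection of the Cantor space into the unit interval -/
lemma exists_gamma : ∃ γ : (ℕ → Bool) → ℝ, Continuous γ ∧ Function.Injective γ ∧
    ∀ c, γ c ∈ Icc (0 : ℝ) 1 := by
  refine ⟨fun c => (cantorSetHomeomorphNatToBool.symm c : cantorSet), ?_, ?_, fun c => ?_⟩
  · exact continuous_subtype_val.comp cantorSetHomeomorphNatToBool.symm.continuous
  · exact Subtype.val_injective.comp cantorSetHomeomorphNatToBool.symm.injective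
  · exact cantorSet_subset_unitInterval (cantorSetHomeomorphNatToBool.symm c).2

/-- the pairs -/
lemma exists_gamma2 : ∃ γ : (ℕ → Bool) × (ℕ → Bool) → ℝ, Continuous γ ∧ Function.Injective γ ∧
    ∀ c, γ c ∈ Icc (0 : ℝ) 1 := by
  obtain ⟨γ, h1, h2, h3⟩ := exists_gamma
  let e : (ℕ → Bool) × (ℕ → Bool) → (ℕ → Bool) := fun p n =>
    if n % 2 = 0 then p.1 (n / 2) else p.2 (n / 2)
  have he : Continuous e := by
    refine continuous_pi fun n => ?_
    by_cases hn : n % 2 = 0
    · simp only [e, hn, if_true]
      exact (continuous_apply _).comp continuous_fst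
    · simp only [e, hn, if_false]
      exact (continuous_apply _).comp continuous_snd
  have hi : Function.Injective e := by
    rintro ⟨a, c⟩ ⟨a', c'⟩ h
    have h4 : a = a' := by
      funext n
      have := congrFun h (2 * n)
      simpa [e] using this
    have h5 : c = c' := by
      funext n
      have := congrFun h (2 * n + 1)
      have h6 : (2 * n + 1) / 2 = n := by omega
      have h7 : (2 * n + 1) % 2 = 1 := by omega
      simpa [e, h6, h7] using this
    rw [h4, h5]
  exact ⟨γ ∘ e, h1.comp he, h2.comp hi, fun c => h3 _⟩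

end Pool.Agent.Q192.IA
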