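import Mathlib

/-!
# A zero-dimensional code of the balls of a dual space
-/

open Filter Topology Set

namespace Pool.Agent.Q192.IA

variable {𝕜 X : Type*} [RCLike 𝕜] [NormedAddCommGroup X] [NormedSpace 𝕜 X]

/-- the Cantor space -/
abbrev Om : Type := ℕ → Bool

/-- the `i`-th row of a code -/
def row (c : Om) (i : ℕ) : Om := fun j => c (Nat.pair i j)

lemma continuous_row (i : ℕ) : Continuous fun c : Om => row c i :=
  continuous_pi fun _ => continuous_apply _

/-- the code from its rows -/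
def ofRows (r : ℕ → Om) : Om := fun n => r (Nat.unpair n).1 (Nat.unpair n).2

lemma row_ofRows (r : ℕ → Om) (i : ℕ) : row (ofRows r) i = r i := by
  funext j
  simp [row, ofRows]

lemma exists_cantor (𝕜 : Type*) [RCLike 𝕜] : ∃ b : Om → 𝕜, Continuous b ∧ (∀ c, ‖b c‖ ≤ 1) ∧
    ∀ a : 𝕜, ‖a‖ ≤ 1 → ∃ c, b c = a := by
  have : CompactSpace (Metric.closedBall (0 : 𝕜) 1) :=
    isCompact_iff_compactSpace.1 (isCompact_closedBall _ _)
  have : Nonempty (Metric.closedBall (0 : 𝕜) 1) := ⟨⟨0, by simp⟩⟩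
  obtain ⟨f, hf, hs⟩ := exists_nat_bool_continuous_surjective_of_compact
    (X := Metric.closedBall (0 : 𝕜) 1)
  refine ⟨fun c => (f c : 𝕜), continuous_subtype_val.comp hf, fun c => ?_, fun a ha => ?_⟩
  · exact mem_closedBall_zero_iff.1 (f c).2
  · obtain ⟨c, hc⟩ := hs ⟨a, by simpa using ha⟩
    refine ⟨c, ?_⟩
    change ((f c : Metric.closedBall (0 : 𝕜) 1) : 𝕜) = a
    rw [hc]

/-- `c` is a code of the functional `y` -/
def Rep (b : Om → 𝕜) (x : ℕ → X) (c : Om) (y : StrongDual 𝕜 X) : Prop :=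
  ∀ i, y (x i) = b (row c i)

/-- the codes of the functionals of norm at most `ρ` -/
def DD (b : Om → 𝕜) (x : ℕ → X) (ρ : ℝ) : Set Om :=
  {c | ∃ y : StrongDual 𝕜 X, ‖y‖ ≤ ρ ∧ Rep b x c y}

open Classical in
/-- the functional with code `c` -/
noncomputable def phi (b : Om → 𝕜) (x : ℕ → X) (c : Om) : StrongDual 𝕜 X :=
  if h : ∃ y : StrongDual 𝕜 X, Rep b x c y then h.choose else 0

section
variable {b : Om → 𝕜} {x : ℕ → X}
  (hx : Dense (Submodule.span 𝕜 (range x) : Set X))

include hx in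
lemma ext_span {y y' : StrongDual 𝕜 X} (h : ∀ i, y (x i) = y' (x i)) : y = y' := by
  refine ContinuousLinearMap.ext_on hx ?_
  rintro _ ⟨i, rfl⟩
  exact h i

include hx in
lemma phi_eq {c : Om} {y : StrongDual 𝕜 X} (h : Rep b x c y) : phi b x c = y := by
  have h1 : ∃ y : StrongDual 𝕜 X, Rep b x c y := ⟨y, h⟩
  rw [phi, dif_pos h1]
  exact ext_span hx fun i => (h1.choose_spec i).trans (h i).symm

include hx in
lemma phi_spec {ρ : ℝ} {c : Om} (hc : c ∈ DD b x ρ) :
    ‖phi b x c‖ ≤ ρ ∧ Rep b x c (phi b x c) := by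
  obtain ⟨y, h1, h2⟩ := hc
  rw [phi_eq hx h2]
  exact ⟨h1, h2⟩

include hx in
lemma exists_code (hb : ∀ a : 𝕜, ‖a‖ ≤ 1 → ∃ c, b c = a) (hx1 : ∀ i, ‖x i‖ ≤ 1) {ρ : ℝ}
    (hρ : ρ ≤ 1) {y : StrongDual 𝕜 X} (hy : ‖y‖ ≤ ρ) : ∃ c ∈ DD b x ρ, phi b x c = y := by
  have h1 : ∀ i, ∃ r, b r = y (x i) := fun i => hb _ (by
    refine (y.le_opNorm _).trans ?_
    have := hx1 i
    nlinarith [norm_nonneg y, norm_nonneg (x i)])
  choose r hr using h1
  have h2 : Rep b x (ofRows r) y := fun i => by rw [row_ofRows, hr]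
  exact ⟨ofRows r, ⟨y, hy, h2⟩, phi_eq hx h2⟩

lemma DD_mono {ρ ρ' : ℝ} (h : ρ ≤ ρ') : DD b x ρ ⊆ DD b x ρ' := by
  rintro c ⟨y, h1, h2⟩
  exact ⟨y, h1.trans h, h2⟩

include hx in
lemma mem_DD {ρ ρ' : ℝ} {c : Om} (hc : c ∈ DD b x ρ) (h : ‖phi b x c‖ ≤ ρ') : c ∈ DD b x ρ' :=
  ⟨_, h, (phi_spec hx hc).2⟩

lemma isClosed_DD (hb : Continuous b) (ρ : ℝ) : IsClosed (DD b x ρ) := by
  have h1 : IsCompact {p : Om × WeakDual 𝕜 X |
      (WeakDual.toStrongDual p.2 : StrongDual 𝕜 X) ∈ Metric.closedBall (0 : StrongDual 𝕜 X) ρ ∧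
      ∀ i, p.2 (x i) = b (row p.1 i)} := by
    have h2 : IsCompact ((univ : Set Om) ×ˢ
      (WeakDual.toStrongDual ⁻¹' Metric.closedBall (0 : StrongDual 𝕜 X) ρ : Set (WeakDual 𝕜 X))) :=
      isCompact_univ.prod (WeakDual.isCompact_closedBall 0 ρ)
    have h3 : IsClosed {p : Om × WeakDual 𝕜 X | ∀ i, p.2 (x i) = b (row p.1 i)} := by
      simp only [Set.ofPred_forall]
      refine isClosed_iInter fun i => isClosed_eq ?_ ?_
      · exact (WeakDual.eval_continuous (x i)).comp continuous_snd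
      · exact hb.comp ((continuous_row i).comp continuous_fst)
    have h4 := h2.inter_right h3
    convert h4 using 1
    ext p
    simp
  have h5 := (h1.image continuous_fst).isClosed
  convert h5 using 1
  ext c
  constructor
  · rintro ⟨y, hy, hr⟩
    refine ⟨(c, StrongDual.toWeakDual y), ⟨?_, hr⟩, rfl⟩
    simpa using hy
  · rintro ⟨⟨c', y⟩, ⟨hy, hr⟩, rfl⟩
    exact ⟨WeakDual.toStrongDual y, by simpa using hy, hr⟩

include hx in
lemma phi_continuousOn (hb : Continuous b) {ρ : ℝ} (z : X) :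
    ContinuousOn (fun c => phi b x c z) (DD b x ρ) := by
  have h1 : ∀ p ∈ Submodule.span 𝕜 (range x), ContinuousOn (fun c => phi b x c p) (DD b x ρ) := by
    intro p hp
    induction hp using Submodule.span_induction with
    | mem p hp =>
      obtain ⟨i, rfl⟩ := hp
      refine ContinuousOn.congr (f := fun c => b (row c i))
        (hb.comp (continuous_row i)).continuousOn ?_
      intro c hc
      exact (phi_spec hx hc).2 i
    | zero => simpa using continuousOn_const
    | add u v _ _ hu hv => exact (hu.add hv).congr fun c _ => map_add (phi b x c) u v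
    | smul a u _ hu =>
      exact (continuousOn_const.mul hu).congr fun c _ => map_smul (phi b x c) a u
  rw [Metric.continuousOn_iff']
  intro c hc ε hε
  by_cases hρ : 0 ≤ ρ
  · obtain ⟨p, hp1, hp2⟩ := Metric.dense_iff.1 hx z (ε / (4 * (ρ + 1))) (by positivity)
    have h2 := Metric.continuousOn_iff'.1 (h1 p hp2) c hc (ε / 2) (by positivity)
    filter_upwards [h2, self_mem_nhdsWithin] with c' h3 hc'
    rw [dist_eq_norm] at h3 ⊢
    have h4 : ∀ c'' ∈ DD b x ρ, ‖phi b x c'' z - phi b x c'' p‖ ≤ ε / 4 := by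
      intro c'' hc''
      rw [← map_sub]
      refine ((phi b x c'').le_opNorm _).trans ?_
      have h5 : ‖z - p‖ < ε / (4 * (ρ + 1)) := by
        rw [← dist_eq_norm, dist_comm]; exact hp1
      rw [lt_div_iff₀ (by positivity)] at h5
      have h6 := (phi_spec hx hc'').1
      have h7 : ‖phi b x c''‖ * ‖z - p‖ ≤ (ρ + 1) * ‖z - p‖ :=
        mul_le_mul_of_nonneg_right (by linarith) (norm_nonneg _)
      linarith
    have h5 : phi b x c' z - phi b x c z = (phi b x c' z - phi b x c' p) +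
        (phi b x c' p - phi b x c p) - (phi b x c z - phi b x c p) := by ring
    rw [h5]
    refine (norm_sub_le _ _).trans_lt ?_
    have := norm_add_le (phi b x c' z - phi b x c' p) (phi b x c' p - phi b x c p)
    linarith [h4 c' hc', h4 c hc]
  · exact absurd ((norm_nonneg _).trans (phi_spec hx hc).1) hρ

/-- interpolation of finitely many linearly independent vectors -/
lemma exists_interp (hli : LinearIndependent 𝕜 x) (m : ℕ) : ∃ C : ℝ, 0 ≤ C ∧ ∀ a : ℕ → 𝕜,
    ∃ g : StrongDual 𝕜 X, (∀ i < m, g (x i) = a i) ∧ ‖g‖ ≤ C * ∑ i ∈ Finset.range m, ‖a i‖ := by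
  have h1 : ∀ i < m, ∃ g : StrongDual 𝕜 X, ∀ j < m, g (x j) = if j = i then 1 else 0 := by
    intro i hi
    have hli' : LinearIndependent 𝕜 (fun j : Fin m => x j) := hli.comp _ Fin.val_injective
    let B := Module.Basis.span hli'
    have : FiniteDimensional 𝕜 (Submodule.span 𝕜 (range fun j : Fin m => x j)) :=
      B.finiteDimensional_of_finite
    obtain ⟨g, hg, -⟩ := exists_extension_norm_eq _
      (LinearMap.toContinuousLinearMap (B.coord ⟨i, hi⟩))
    refine ⟨g, fun j hj => ?_⟩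
    have h2 := hg (B ⟨j, hj⟩)
    have h3 : ((B ⟨j, hj⟩ : Submodule.span 𝕜 (range fun j : Fin m => x j)) : X) = x j :=
      congrArg _ (Module.Basis.span_apply hli' ⟨j, hj⟩)
    rw [h3] at h2
    rw [h2]
    simp only [LinearMap.coe_toContinuousLinearMap', Module.Basis.coord_apply,
      Module.Basis.repr_self, Finsupp.single_apply, Fin.mk.injEq]
  choose! g hg using h1
  refine ⟨∑ i ∈ Finset.range m, ‖g i‖, Finset.sum_nonneg fun _ _ => norm_nonneg _, fun a =>
    ⟨∑ i ∈ Finset.range m, a i • g i, fun j hj => ?_, ?_⟩⟩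
  · rw [sum_apply]
    rw [Finset.sum_eq_single j]
    · change a j * g j (x j) = _
      rw [hg j hj j hj, if_pos rfl, mul_one]
    · intro i hi hij
      change a i * g i (x j) = _
      rw [hg i (Finset.mem_range.1 hi) j hj, if_neg (Ne.symm hij), mul_zero]
    · intro h
      exact absurd (Finset.mem_range.2 hj) h
  · refine (norm_sum_le _ _).trans ?_
    rw [Finset.mul_sum]
    refine Finset.sum_le_sum fun i hi => ?_
    rw [norm_smul, mul_comm]
    exact mul_le_mul_of_nonneg_right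
      (Finset.single_le_sum (f := fun i => ‖g i‖) (fun _ _ => norm_nonneg _) hi) (norm_nonneg _)

include hx in
/-- local transport of pairs of codes -/
lemma transport (hbc : Continuous b) (hb : ∀ a : 𝕜, ‖a‖ ≤ 1 → ∃ c, b c = a)
    (hx1 : ∀ i, ‖x i‖ ≤ 1) (hli : LinearIndependent 𝕜 x) {r R η : ℝ} (hR : r + η ≤ R)
    (hR1 : R ≤ 1) {l l' : Om} (hl : l ∈ DD b x r) (hl' : l' ∈ DD b x R)
    (hd : ‖phi b x l - phi b x l'‖ < η) (m : ℕ) :
    ∃ U ∈ 𝓝 l, ∀ l₁ ∈ U, l₁ ∈ DD b x r → ∃ l₂ ∈ DD b x R, (∀ k < m, l₂ k = l' k) ∧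
      ‖phi b x l₁ - phi b x l₂‖ < η := by
  obtain ⟨C, hC, hI⟩ := exists_interp (𝕜 := 𝕜) hli m
  obtain ⟨ε, hε, hεC⟩ : ∃ ε : ℝ, 0 < ε ∧ C * (m * ε) < η - ‖phi b x l - phi b x l'‖ := by
    have h0 : 0 < η - ‖phi b x l - phi b x l'‖ := by linarith
    refine ⟨(η - ‖phi b x l - phi b x l'‖) / (C * m + 1), by positivity, ?_⟩
    have : C * (m * ((η - ‖phi b x l - phi b x l'‖) / (C * m + 1))) =
      (η - ‖phi b x l - phi b x l'‖) * ((C * m) / (C * m + 1)) := by ring
    rw [this]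
    have h1 : (C * m) / (C * m + 1) < 1 := by
      rw [div_lt_one (by positivity)]; linarith
    nlinarith
  refine ⟨⋂ i ∈ Finset.range m, {l₁ | ‖b (row l₁ i) - b (row l i)‖ < ε}, ?_, ?_⟩
  · refine (Filter.biInter_finset_mem _).2 fun i _ => ?_
    have hc : Continuous fun l₁ => ‖b (row l₁ i) - b (row l i)‖ :=
      ((hbc.comp (continuous_row i)).sub continuous_const).norm
    exact (isOpen_lt hc continuous_const).mem_nhds (by simpa using hε)
  · intro l₁ hU hl₁
    obtain ⟨g, hg1, hg2⟩ := hI fun i => -(b (row l₁ i) - b (row l i))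
    have hU' : ∀ i < m, ‖b (row l₁ i) - b (row l i)‖ < ε := by
      intro i hi
      have := mem_iInter₂.1 hU i (Finset.mem_range.2 hi)
      exact this
    have hgn : ‖g‖ ≤ C * (m * ε) := by
      refine hg2.trans (mul_le_mul_of_nonneg_left ?_ hC)
      have : ∑ i ∈ Finset.range m, ‖-(b (row l₁ i) - b (row l i))‖ ≤
          ∑ _i ∈ Finset.range m, ε := Finset.sum_le_sum fun i hi => by
        rw [norm_neg]
        exact (hU' i (Finset.mem_range.1 hi)).le
      simpa using this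
    obtain ⟨y, hy⟩ : ∃ y : StrongDual 𝕜 X,
        y = phi b x l₁ + (phi b x l' - phi b x l) + g := ⟨_, rfl⟩
    have hd2 : ‖phi b x l₁ - y‖ < η := by
      have e : phi b x l₁ - y = (phi b x l - phi b x l') - g := by rw [hy]; abel
      rw [e]
      refine (norm_sub_le _ _).trans_lt ?_
      linarith
    have hyR : ‖y‖ ≤ R := by
      have e : y = phi b x l₁ - (phi b x l₁ - y) := by abel
      rw [e]
      refine (norm_sub_le _ _).trans ?_
      linarith [(phi_spec hx hl₁).1]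
    have h1 : ∀ i, ∃ s, b s = y (x i) ∧ (i < m → s = row l' i) := by
      intro i
      by_cases hi : i < m
      · refine ⟨row l' i, ?_, fun _ => rfl⟩
        rw [hy]
        change _ = phi b x l₁ (x i) + (phi b x l' (x i) - phi b x l (x i)) + g (x i)
        rw [(phi_spec hx hl₁).2 i, (phi_spec hx hl').2 i, (phi_spec hx hl).2 i, hg1 i hi]
        ring
      · obtain ⟨s, hs⟩ := hb (y (x i)) (by
          refine (y.le_opNorm _).trans ?_
          have := hx1 i
          nlinarith [norm_nonneg y, norm_nonneg (x i)])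
        exact ⟨s, hs, fun h => absurd h hi⟩
    choose s hs1 hs2 using h1
    have h2 : Rep b x (ofRows s) y := fun i => by rw [row_ofRows, hs1]
    refine ⟨ofRows s, ⟨y, hyR, h2⟩, fun k hk => ?_, ?_⟩
    · change s (Nat.unpair k).1 (Nat.unpair k).2 = _
      rw [hs2 _ ((Nat.unpair_left_le k).trans_lt hk)]
      change l' (Nat.pair _ _) = _
      rw [Nat.pair_unpair]
    · rw [phi_eq hx h2]
      exact hd2

end

end Pool.Agent.Q192.IA
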