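import Mathlib

/-!
# The isometric approximation property: definitions
-/

open Filter Topology Set

namespace Pool.Agent.Q192.IA

/-- the modulus of smoothness of a normed space -/
noncomputable def rho (𝕜 X : Type*) [RCLike 𝕜] [NormedAddCommGroup X] [NormedSpace 𝕜 X]
    (t : ℝ) : ℝ :=
  sSup {r : ℝ | ∃ x y : X, ‖x‖ = 1 ∧ ‖y‖ = 1 ∧
    r = (‖x + (t : 𝕜) • y‖ + ‖x - (t : 𝕜) • y‖) / 2 - 1}

/-- uniform smoothness: `ρ_X(t) / t → 0` as `t → 0+` -/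
def UniformlySmooth (𝕜 X : Type*) [RCLike 𝕜] [NormedAddCommGroup X] [NormedSpace 𝕜 X] : Prop :=
  Tendsto (fun t : ℝ => rho 𝕜 X t / t) (𝓝[>] 0) (𝓝 0)

/-- `(1 - ε) ‖x‖ ≤ ‖T x‖ ≤ (1 + ε) ‖x‖` -/
def IsEpsIsometric {𝕜 X E : Type*} [RCLike 𝕜] [NormedAddCommGroup X] [NormedSpace 𝕜 X]
    [NormedAddCommGroup E] [NormedSpace 𝕜 E] (ε : ℝ) (T : X →L[𝕜] E) : Prop :=
  ∀ x, (1 - ε) * ‖x‖ ≤ ‖T x‖ ∧ ‖T x‖ ≤ (1 + ε) * ‖x‖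

/-- the isometric approximation property of the space of operators `X → E` -/
def IsometricApproximation (𝕜 X E : Type*) [RCLike 𝕜] [NormedAddCommGroup X] [NormedSpace 𝕜 X]
    [NormedAddCommGroup E] [NormedSpace 𝕜 E] : Prop :=
  ∃ δ : ℝ → ℝ, (∀ ε ∈ Ioo (0 : ℝ) 1, 0 ≤ δ ε) ∧ Tendsto δ (𝓝[>] 0) (𝓝 0) ∧
    ∀ ε ∈ Ioo (0 : ℝ) 1, ∀ T : X →L[𝕜] E, IsEpsIsometric ε T →
      ∃ V : X →L[𝕜] E, IsEpsIsometric 0 V ∧ ‖T - V‖ ≤ δ ε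

end Pool.Agent.Q192.IA
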