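import Pool.Agent.Q192.IA.Hit
import Pool.Agent.Q192.IA.Cantor

/-!
# The finite-dimensional case
-/

open Filter Topology Set unitInterval

namespace Pool.Agent.Q192.IA

variable {𝕜 X : Type*} [RCLike 𝕜] [NormedAddCommGroup X] [NormedSpace 𝕜 X]

/-- radial retraction onto the unit ball -/
noncomputable def rr (𝕜 : Type*) [RCLike 𝕜] {Y : Type*} [NormedAddCommGroup Y] [NormedSpace 𝕜 Y]
    (y : Y) : Y := (((max 1 ‖y‖)⁻¹ : ℝ) : 𝕜) • y

section
variable {Y : Type*} [NormedAddCommGroup Y] [NormedSpace 𝕜 Y]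

lemma continuous_rr : Continuous (rr 𝕜 : Y → Y) := by
  refine Continuous.smul (RCLike.continuous_ofReal.comp ?_) continuous_id
  exact (continuous_const.max continuous_norm).inv₀ fun y => by
    have := le_max_left (1 : ℝ) ‖y‖
    positivity

lemma rr_norm_le (y : Y) : ‖rr 𝕜 y‖ ≤ 1 := by
  have h1 := le_max_left (1 : ℝ) ‖y‖
  have h2 := le_max_right (1 : ℝ) ‖y‖
  rw [rr, norm_smul, RCLike.norm_ofReal, abs_of_nonneg (by positivity)]
  exact inv_mul_le_one_of_le₀ h2 (by positivity)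

lemma rr_eq {y : Y} (hy : ‖y‖ ≤ 1) : rr 𝕜 y = y := by
  rw [rr, max_eq_left hy]
  simp

lemma rr_sub_le {y : Y} {δ : ℝ} (hδ : 0 ≤ δ) (hy : ‖y‖ ≤ 1 + δ) : ‖rr 𝕜 y - y‖ ≤ δ := by
  have h1 := le_max_left (1 : ℝ) ‖y‖
  have h2 := le_max_right (1 : ℝ) ‖y‖
  have e : rr 𝕜 y - y = (((max 1 ‖y‖)⁻¹ - 1 : ℝ) : 𝕜) • y := by
    rw [rr, RCLike.ofReal_sub, sub_smul]
    simp
  rw [e, norm_smul, RCLike.norm_ofReal]
  have h3 : (max 1 ‖y‖)⁻¹ ≤ 1 := inv_le_one_of_one_le₀ h1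
  rw [abs_of_nonpos (by linarith), neg_sub]
  have h4 : (1 - (max 1 ‖y‖)⁻¹) * ‖y‖ ≤ (1 - (max 1 ‖y‖)⁻¹) * max 1 ‖y‖ :=
    mul_le_mul_of_nonneg_left h2 (by linarith)
  have h5 : (1 - (max 1 ‖y‖)⁻¹) * max 1 ‖y‖ = max 1 ‖y‖ - 1 := by
    have : max 1 ‖y‖ ≠ 0 := by positivity
    field_simp
  have h6 : max 1 ‖y‖ ≤ 1 + δ := max_le (by linarith) hy
  linarith
end

/-- disjoint Cantor sets near the points of a finite set -/
lemma exists_iota (F : Finset I) {r : ℝ} (hr : 0 < r) :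
    ∃ e : F × (ℕ → Bool) → I, IsClosedEmbedding e ∧ ∀ p, |(e p : ℝ) - (p.1 : I)| < r := by
  obtain ⟨γ, hγc, hγi, hγm⟩ := exists_gamma
  obtain ⟨d, hd, hdF⟩ : ∃ d : ℝ, 0 < d ∧ ∀ a ∈ F, ∀ b ∈ F, a ≠ b → d ≤ |(a : ℝ) - b| := by
    classical
    rcases ((F ×ˢ F).filter fun p => p.1 ≠ p.2).eq_empty_or_nonempty with h | h
    · refine ⟨1, one_pos, fun a ha b hb hab => ?_⟩
      have : (a, b) ∈ (F ×ˢ F).filter fun p => p.1 ≠ p.2 := by simp [ha, hb, hab]
      rw [h] at this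
      simp at this
    · obtain ⟨q, hq, hmin⟩ := Finset.exists_min_image _
        (fun p : I × I => |(p.1 : ℝ) - p.2|) h
      refine ⟨|(q.1 : ℝ) - q.2|, abs_pos.2 (sub_ne_zero.2 fun h => ?_), fun a ha b hb hab =>
        hmin (a, b) (by simp [ha, hb, hab])⟩
      rw [Finset.mem_filter] at hq
      exact hq.2 (Subtype.ext h)
  obtain ⟨s, hs0, hs1, hs2, hs3⟩ : ∃ s : ℝ, 0 < s ∧ s ≤ 1 / 2 ∧ s < r ∧ s < d / 2 := by
    refine ⟨min (1 / 2) (min (r / 2) (d / 4)), by positivity, min_le_left _ _, ?_, ?_⟩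
    · exact ((min_le_right _ _).trans (min_le_left _ _)).trans_lt (by linarith)
    · exact ((min_le_right _ _).trans (min_le_right _ _)).trans_lt (by linarith)
  have hmem : ∀ p : F × (ℕ → Bool), (1 - s) * ((p.1 : I) : ℝ) + s * γ p.2 ∈ Icc (0 : ℝ) 1 := by
    intro p
    have h1 := (p.1 : I).2
    have h2 := hγm p.2
    have h3 : ((p.1 : I) : ℝ) ≤ 1 := h1.2
    have h4 : 0 ≤ ((p.1 : I) : ℝ) := h1.1
    constructor
    · nlinarith [h2.1]
    · nlinarith [h2.2]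
  have hcont : Continuous fun p : F × (ℕ → Bool) =>
      (⟨(1 - s) * ((p.1 : I) : ℝ) + s * γ p.2, hmem p⟩ : I) := by
    refine Continuous.subtype_mk ?_ _
    exact (continuous_const.mul (continuous_subtype_val.comp
      (continuous_subtype_val.comp continuous_fst))).add
      (continuous_const.mul (hγc.comp continuous_snd))
  refine ⟨_, hcont.isClosedEmbedding ?_, fun p => ?_⟩
  · rintro ⟨a, c⟩ ⟨a', c'⟩ h
    have h1 : (1 - s) * ((a : I) : ℝ) + s * γ c = (1 - s) * ((a' : I) : ℝ) + s * γ c' :=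
      congrArg Subtype.val h
    have h2 := hγm c
    have h3 := hγm c'
    have h4 : a = a' := by
      by_contra hne
      have h5 := hdF a a.2 a' a'.2 (fun h => hne (Subtype.ext h))
      have h6 : (1 - s) * (((a : I) : ℝ) - ((a' : I) : ℝ)) = s * (γ c' - γ c) := by linarith
      have h7 : |(1 - s) * (((a : I) : ℝ) - ((a' : I) : ℝ))| = |s * (γ c' - γ c)| := by rw [h6]
      rw [abs_mul, abs_mul, abs_of_pos hs0, abs_of_pos (by linarith : (0 : ℝ) < 1 - s)] at h7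
      have h8 : |γ c' - γ c| ≤ 1 := by
        rw [abs_le]; constructor <;> linarith [h2.1, h2.2, h3.1, h3.2]
      nlinarith
    subst h4
    have h5 : γ c = γ c' := by
      have : s * γ c = s * γ c' := by linarith
      exact mul_left_cancel₀ hs0.ne' this
    rw [hγi h5]
  · change |(1 - s) * ((p.1 : I) : ℝ) + s * γ p.2 - ((p.1 : I) : ℝ)| < r
    have h1 := (p.1 : I).2
    have h2 := hγm p.2
    have h3 : ((p.1 : I) : ℝ) ≤ 1 := h1.2
    have h4 : 0 ≤ ((p.1 : I) : ℝ) := h1.1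
    have e : (1 - s) * ((p.1 : I) : ℝ) + s * γ p.2 - ((p.1 : I) : ℝ) =
        s * (γ p.2 - ((p.1 : I) : ℝ)) := by ring
    rw [e, abs_mul, abs_of_pos hs0]
    have h8 : |γ p.2 - ((p.1 : I) : ℝ)| ≤ 1 := by
      rw [abs_le]; constructor <;> linarith [h2.1, h2.2]
    nlinarith

lemma fin_approx [FiniteDimensional 𝕜 X] (T : X →L[𝕜] C(I, 𝕜)) {ω : ℝ} (hω : 0 < ω)
    (h1 : ∀ t, ‖cv T t‖ ≤ 1 + ω)
    (h2 : ∀ z : StrongDual 𝕜 X, ‖z‖ = 1 → ∃ t, ∃ lam : 𝕜, ‖lam‖ = 1 ∧ ‖cv T t - lam • z‖ ≤ ω) :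
    ∃ V : X →L[𝕜] C(I, 𝕜), IsEpsIsometric 0 V ∧ ‖T - V‖ ≤ 7 * ω := by
  have hcT : Continuous (cv T) := continuous_clm_apply.2 fun x => (T x).continuous
  haveI : FiniteDimensional 𝕜 (StrongDual 𝕜 X) := inferInstance
  haveI : ProperSpace (StrongDual 𝕜 X) := FiniteDimensional.proper 𝕜 _
  -- the finite set of times
  obtain ⟨F, hF⟩ : ∃ F : Finset I, ∀ z : StrongDual 𝕜 X, ‖z‖ = 1 → ∃ t ∈ F, ∃ lam : 𝕜,
      ‖lam‖ = 1 ∧ ‖cv T t - lam • z‖ ≤ 2 * ω := by
    choose! t lam hl ht using h2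
    have hcomp : IsCompact (Metric.sphere (0 : StrongDual 𝕜 X) 1) := isCompact_sphere _ _
    obtain ⟨G, hG, hGc⟩ := hcomp.elim_nhds_subcover (fun z => Metric.ball z ω)
      (fun z _ => Metric.ball_mem_nhds z hω)
    classical
    refine ⟨G.image t, fun z hz => ?_⟩
    obtain ⟨w, hw, hzw⟩ := mem_iUnion₂.1 (hGc (by simpa using hz : z ∈ Metric.sphere _ _))
    have hw1 : ‖w‖ = 1 := by simpa using hG w hw
    refine ⟨t w, Finset.mem_image_of_mem _ hw, lam w, hl w hw1, ?_⟩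
    have e : cv T (t w) - lam w • z = (cv T (t w) - lam w • w) - lam w • (z - w) := by
      have : lam w • (z - w) = lam w • z - lam w • w := smul_sub _ _ _
      rw [this]; abel
    rw [e]
    refine (norm_sub_le _ _).trans ?_
    rw [norm_smul, hl w hw1, one_mul]
    rw [Metric.mem_ball, dist_eq_norm] at hzw
    linarith [ht w hw1]
  -- uniform continuity
  obtain ⟨r, hr, hrT⟩ := Metric.uniformContinuous_iff.1
    (CompactSpace.uniformContinuous_of_continuous hcT) ω hω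
  obtain ⟨e, he, her⟩ := exists_iota F hr
  haveI : CompactSpace (Metric.closedBall (0 : StrongDual 𝕜 X) (2 * ω)) :=
    isCompact_iff_compactSpace.1 (isCompact_closedBall _ _)
  haveI : Nonempty (Metric.closedBall (0 : StrongDual 𝕜 X) (2 * ω)) :=
    ⟨⟨0, by simp [hω.le]⟩⟩
  obtain ⟨ψ, hψc, hψs⟩ := exists_nat_bool_continuous_surjective_of_compact
    (X := Metric.closedBall (0 : StrongDual 𝕜 X) (2 * ω))
  -- the correction on the Cantor sets
  let w : C(F × (ℕ → Bool), StrongDual 𝕜 X) :=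
    ⟨fun p => cv T p.1 + (ψ p.2 : StrongDual 𝕜 X) - cv T (e p), by
      exact ((hcT.comp (continuous_subtype_val.comp continuous_fst)).add
        (continuous_subtype_val.comp (hψc.comp continuous_snd))).sub (hcT.comp he.continuous)⟩
  have hw : ∀ p, w p ∈ Metric.closedBall (0 : StrongDual 𝕜 X) (3 * ω) := by
    intro p
    rw [mem_closedBall_zero_iff]
    have e1 : w p = (ψ p.2 : StrongDual 𝕜 X) - (cv T (e p) - cv T p.1) := by
      change cv T p.1 + (ψ p.2 : StrongDual 𝕜 X) - cv T (e p) = _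
      abel
    rw [e1]
    refine (norm_sub_le _ _).trans ?_
    have e2 : ‖(ψ p.2 : StrongDual 𝕜 X)‖ ≤ 2 * ω := mem_closedBall_zero_iff.1 (ψ p.2).2
    have e3 : ‖cv T (e p) - cv T p.1‖ < ω := by
      rw [← dist_eq_norm]
      refine hrT ?_
      rw [Subtype.dist_eq, Real.dist_eq]
      exact her p
    linarith
  haveI := Metric.instTietzeExtensionClosedBall 𝕜 (0 : StrongDual 𝕜 X)
    (by positivity : (0 : ℝ) < 3 * ω)
  obtain ⟨W, hW1, hW2⟩ := w.exists_extension_forall_mem he hw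
  have hW1' : ∀ t, ‖W t‖ ≤ 3 * ω := fun t => mem_closedBall_zero_iff.1 (hW1 t)
  have hνc : Continuous fun t => rr 𝕜 (cv T t + W t) := continuous_rr.comp (hcT.add W.continuous)
  obtain ⟨V, hV⟩ := exists_op (fun t => rr 𝕜 (cv T t + W t)) (C := 1)
    (fun t => rr_norm_le _) (fun x => (continuous_eval_const x).comp hνc)
  refine ⟨V, ?_, ?_⟩
  · refine isometric_of_hits (δ := 0) (fun t => ?_) (fun z hz => ?_) (by norm_num) le_rfl
    · rw [hV]; simpa using rr_norm_le _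
    · obtain ⟨t, htF, lam, hl, ht⟩ := hF z hz
      have h3 : lam • z - cv T t ∈ Metric.closedBall (0 : StrongDual 𝕜 X) (2 * ω) := by
        rw [mem_closedBall_zero_iff, norm_sub_rev]; exact ht
      obtain ⟨c, hc⟩ := hψs ⟨_, h3⟩
      refine ⟨e (⟨t, htF⟩, c), lam, hl, ?_⟩
      have h4 : W (e (⟨t, htF⟩, c)) = w (⟨t, htF⟩, c) := congrArg (fun g => g (⟨t, htF⟩, c)) hW2
      have h5 : w (⟨t, htF⟩, c) = cv T t + (ψ c : StrongDual 𝕜 X) - cv T (e (⟨t, htF⟩, c)) := rfl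
      rw [hV, h4, h5, hc]
      have h6 : cv T (e (⟨t, htF⟩, c)) + (cv T t + (lam • z - cv T t) -
        cv T (e (⟨t, htF⟩, c))) = lam • z := by abel
      rw [h6, rr_eq, sub_self, norm_zero]
      rw [norm_smul, hl, hz, one_mul]
  · refine op_sub_le (by positivity) fun t => ?_
    rw [hV]
    have e1 : cv T t - rr 𝕜 (cv T t + W t) =
        -W t - (rr 𝕜 (cv T t + W t) - (cv T t + W t)) := by abel
    rw [e1]
    refine (norm_sub_le _ _).trans ?_
    rw [norm_neg]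
    have e2 : ‖rr 𝕜 (cv T t + W t) - (cv T t + W t)‖ ≤ 4 * ω := by
      refine rr_sub_le (by positivity) ?_
      refine (norm_add_le _ _).trans ?_
      linarith [h1 t, hW1' t]
    linarith [hW1' t]

/-- the isometric approximation property for finite-dimensional spaces -/
theorem fin_iap [FiniteDimensional 𝕜 X] (hX : UniformlySmooth 𝕜 X) :
    IsometricApproximation 𝕜 X C(I, 𝕜) := by
  -- the best constant
  let S : ℝ → Set ℝ := fun ε => {d | 0 ≤ d ∧ ∀ T : X →L[𝕜] C(I, 𝕜), IsEpsIsometric ε T →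
    ∃ V : X →L[𝕜] C(I, 𝕜), IsEpsIsometric 0 V ∧ ‖T - V‖ ≤ d}
  have hS21 : ∀ ε ∈ Ioo (0 : ℝ) 1, (21 : ℝ) ∈ S ε := by
    intro ε hε
    refine ⟨by norm_num, fun T hT => ?_⟩
    have h0 : ∀ t, ‖cv T t‖ ≤ 1 + 1 := fun t =>
      (cv_norm_le hT (by linarith [hε.1]) t).trans (by linarith [hε.2])
    obtain ⟨V, h1, h2⟩ := fin_approx T (ω := 3) (by norm_num)
      (fun t => (h0 t).trans (by norm_num)) (fun z hz => ⟨0, 1, by simp, by
        refine (norm_sub_le _ _).trans ?_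
        rw [one_smul, hz]
        linarith [h0 0]⟩)
    exact ⟨V, h1, h2.trans (by norm_num)⟩
  have hbdd : ∀ ε, BddBelow (S ε) := fun ε => ⟨0, fun d hd => hd.1⟩
  have hinf : ∀ ε ∈ Ioo (0 : ℝ) 1, 0 ≤ sInf (S ε) := fun ε hε =>
    le_csInf ⟨21, hS21 ε hε⟩ fun d hd => hd.1
  refine ⟨fun ε => sInf (S ε) + ε, fun ε hε => ?_, ?_, fun ε hε T hT => ?_⟩
  · have := hinf ε hε
    linarith [hε.1]
  · rw [Metric.tendsto_nhds]
    intro ω hω
    obtain ⟨ε₀, hε₀, h⟩ := approx_hit (𝕜 := 𝕜) (X := X) hX (ω := ω / 16) (by positivity)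
    have h1 : ∀ᶠ ε : ℝ in 𝓝[>] 0, ε < min (min ε₀ (ω / 16)) 1 :=
      mem_nhdsWithin_of_mem_nhds (gt_mem_nhds (by positivity))
    filter_upwards [h1, self_mem_nhdsWithin] with ε hε1 (hε2 : 0 < ε)
    have a1 : ε < ε₀ := hε1.trans_le ((min_le_left _ _).trans (min_le_left _ _))
    have a2 : ε < ω / 16 := hε1.trans_le ((min_le_left _ _).trans (min_le_right _ _))
    have a3 : ε < 1 := hε1.trans_le (min_le_right _ _)
    have h2 : 7 * (ω / 16) ∈ S ε := by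
      refine ⟨by positivity, fun T hT => ?_⟩
      exact fin_approx T (by positivity)
        (fun t => (cv_norm_le hT (by linarith) t).trans (by linarith)) (h ε hε2.le a1.le T hT)
    have h3 : sInf (S ε) ≤ 7 * (ω / 16) := csInf_le (hbdd ε) h2
    have h4 := hinf ε ⟨hε2, a3⟩
    rw [Real.dist_eq, sub_zero, abs_of_nonneg (by linarith)]
    linarith
  · obtain ⟨d, hd, hdl⟩ := exists_lt_of_csInf_lt ⟨21, hS21 ε hε⟩
      (by linarith [hε.1] : sInf (S ε) < sInf (S ε) + ε)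
    obtain ⟨V, h1, h2⟩ := hd.2 T hT
    exact ⟨V, h1, h2.trans hdl.le⟩

end Pool.Agent.Q192.IA
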