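import Mathlib

/-!
# Linear interpolation on the gaps of a closed subset of the line
-/

open Filter Topology Set

namespace Pool.Agent.Q192.IA

/-- the last point of `K` before `t` -/
noncomputable def lo (K : Set ℝ) (t : ℝ) : ℝ := sSup (K ∩ Iic t)
/-- the first point of `K` after `t` -/
noncomputable def hi (K : Set ℝ) (t : ℝ) : ℝ := sInf (K ∩ Ici t)
/-- the weight -/
noncomputable def wt (K : Set ℝ) (t : ℝ) : ℝ := (t - lo K t) / (hi K t - lo K t)

/-- interpolation -/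
noncomputable def gi (𝕜 : Type*) [RCLike 𝕜] {E : Type*} [AddCommGroup E] [Module 𝕜 E]
    (K : Set ℝ) (f : ℝ → E) (t : ℝ) : E :=
  ((1 - wt K t : ℝ) : 𝕜) • f (lo K t) + ((wt K t : ℝ) : 𝕜) • f (hi K t)

section
variable {K : Set ℝ} (hK : IsClosed K) {A B : ℝ} (hA : A ∈ K) (hB : B ∈ K)

include hK hA in
lemma lo_mem {t : ℝ} (ht : A ≤ t) : lo K t ∈ K ∧ lo K t ≤ t ∧ ∀ k ∈ K, k ≤ t → k ≤ lo K t := by
  have h1 : (K ∩ Iic t).Nonempty := ⟨A, hA, ht⟩
  have h2 : BddAbove (K ∩ Iic t) := ⟨t, fun _ h => h.2⟩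
  have h3 := (hK.inter isClosed_Iic).csSup_mem h1 h2
  exact ⟨h3.1, h3.2, fun k hk hkt => le_csSup h2 ⟨hk, hkt⟩⟩

include hK hB in
lemma hi_mem {t : ℝ} (ht : t ≤ B) : hi K t ∈ K ∧ t ≤ hi K t ∧ ∀ k ∈ K, t ≤ k → hi K t ≤ k := by
  have h1 : (K ∩ Ici t).Nonempty := ⟨B, hB, ht⟩
  have h2 : BddBelow (K ∩ Ici t) := ⟨t, fun _ h => h.2⟩
  have h3 := (hK.inter isClosed_Ici).csInf_mem h1 h2
  exact ⟨h3.1, h3.2, fun k hk hkt => csInf_le h2 ⟨hk, hkt⟩⟩

lemma lo_eq {t : ℝ} (ht : t ∈ K) : lo K t = t :=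
  le_antisymm (csSup_le ⟨t, ht, le_refl t⟩ fun _ h => h.2) (le_csSup ⟨t, fun _ h => h.2⟩ ⟨ht, le_refl t⟩)

lemma hi_eq {t : ℝ} (ht : t ∈ K) : hi K t = t :=
  le_antisymm (csInf_le ⟨t, fun _ h => h.2⟩ ⟨ht, le_refl t⟩) (le_csInf ⟨t, ht, le_refl t⟩ fun _ h => h.2)

include hK hA hB in
lemma wt_mem {t : ℝ} (h1 : A ≤ t) (h2 : t ≤ B) : 0 ≤ wt K t ∧ wt K t ≤ 1 := by
  have e1 := lo_mem hK hA h1
  have e2 := hi_mem hK hB h2
  constructor
  · exact div_nonneg (by linarith) (by linarith)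
  · exact div_le_one_of_le₀ (by linarith) (by linarith)

lemma gi_eq (𝕜 : Type*) [RCLike 𝕜] {E : Type*} [AddCommGroup E] [Module 𝕜 E] (f : ℝ → E)
    {t : ℝ} (ht : t ∈ K) : gi 𝕜 K f t = f t := by
  rw [gi, lo_eq ht, hi_eq ht, ← add_smul]
  have : ((1 - wt K t : ℝ) : 𝕜) + ((wt K t : ℝ) : 𝕜) = 1 := by
    rw [← RCLike.ofReal_add]; simp
  rw [this, one_smul]

/-- evaluation commutes with the interpolation -/
lemma gi_apply {𝕜 E : Type*} [RCLike 𝕜] [AddCommGroup E] [Module 𝕜 E] {F : Type*}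
    [AddCommGroup F] [Module 𝕜 F] (L : E →ₗ[𝕜] F) (f : ℝ → E) (t : ℝ) :
    L (gi 𝕜 K f t) = gi 𝕜 K (fun s => L (f s)) t := by
  simp [gi]

include hK hA hB in
lemma gi_norm_le {𝕜 E : Type*} [RCLike 𝕜] [NormedAddCommGroup E] [NormedSpace 𝕜 E] {f : ℝ → E}
    {C : ℝ} (hf : ∀ t ∈ K, ‖f t‖ ≤ C) {t : ℝ} (h1 : A ≤ t) (h2 : t ≤ B) : ‖gi 𝕜 K f t‖ ≤ C := by
  have e1 := lo_mem hK hA h1
  have e2 := hi_mem hK hB h2
  have e3 := wt_mem hK hA hB h1 h2
  refine (norm_add_le _ _).trans ?_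
  rw [norm_smul, norm_smul, RCLike.norm_ofReal, RCLike.norm_ofReal, abs_of_nonneg e3.1,
    abs_of_nonneg (by linarith [e3.2])]
  have e4 := hf _ e1.1
  have e5 := hf _ e2.1
  nlinarith [e3.1, e3.2]

include hK hA hB in
lemma gi_sub_le {𝕜 E : Type*} [RCLike 𝕜] [NormedAddCommGroup E] [NormedSpace 𝕜 E] {f : ℝ → E}
    {t : ℝ} (h1 : A ≤ t) (h2 : t ≤ B) (y : E) :
    ‖gi 𝕜 K f t - y‖ ≤ (1 - wt K t) * ‖f (lo K t) - y‖ + wt K t * ‖f (hi K t) - y‖ := by
  have e3 := wt_mem hK hA hB h1 h2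
  have e : gi 𝕜 K f t - y = ((1 - wt K t : ℝ) : 𝕜) • (f (lo K t) - y) +
      ((wt K t : ℝ) : 𝕜) • (f (hi K t) - y) := by
    have e1 : ((1 - wt K t : ℝ) : 𝕜) • y + ((wt K t : ℝ) : 𝕜) • y = y := by
      rw [← add_smul, ← RCLike.ofReal_add]; simp
    rw [gi, smul_sub, smul_sub]
    nth_rewrite 1 [← e1]
    abel
  rw [e]
  refine (norm_add_le _ _).trans ?_
  rw [norm_smul, norm_smul, RCLike.norm_ofReal, RCLike.norm_ofReal, abs_of_nonneg e3.1,
    abs_of_nonneg (by linarith [e3.2] : (0 : ℝ) ≤ 1 - wt K t)]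

include hK hA hB in
theorem gi_continuousOn {𝕜 E : Type*} [RCLike 𝕜] [NormedAddCommGroup E] [NormedSpace 𝕜 E]
    {f : ℝ → E} (hc : ContinuousOn f K) {C : ℝ} (hC : ∀ t ∈ K, ‖f t‖ ≤ C) :
    ContinuousOn (gi 𝕜 K f) (Icc A B) := by
  have hC0 : 0 ≤ C := (norm_nonneg _).trans (hC A hA)
  intro t₀ ht₀
  by_cases hk : t₀ ∈ K
  · -- a point of `K`
    rw [Metric.continuousWithinAt_iff]
    intro ε hε
    obtain ⟨δ, hδ, hfδ⟩ := Metric.continuousWithinAt_iff.1 (hc t₀ hk) (ε / 2) (by positivity)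
    obtain ⟨δ', hδ', hδ1, hδ2⟩ : ∃ δ' : ℝ, 0 < δ' ∧ δ' ≤ δ / 2 ∧ δ' * (2 * (2 * C)) < δ * ε / 2 := by
      refine ⟨min (δ / 2) (δ * ε / (2 * (2 * (2 * C) + 1))), lt_min (by positivity) (by positivity),
        min_le_left _ _, ?_⟩
      have h1 : min (δ / 2) (δ * ε / (2 * (2 * (2 * C) + 1))) ≤ δ * ε / (2 * (2 * (2 * C) + 1)) :=
        min_le_right _ _
      have h2 : min (δ / 2) (δ * ε / (2 * (2 * (2 * C) + 1))) * (2 * (2 * C)) ≤
        δ * ε / (2 * (2 * (2 * C) + 1)) * (2 * (2 * C)) :=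
        mul_le_mul_of_nonneg_right h1 (by positivity)
      refine h2.trans_lt ?_
      rw [div_mul_eq_mul_div, div_lt_div_iff₀ (by positivity) (by norm_num)]
      nlinarith [mul_pos hδ hε]
    refine ⟨δ', hδ', fun {t} ht hd => ?_⟩
    rw [dist_eq_norm, gi_eq 𝕜 f hk]
    have hd' := abs_lt.1 (by rwa [Real.dist_eq] at hd)
    have e1 := lo_mem hK hA ht.1
    have e2 := hi_mem hK hB ht.2
    have e3 := wt_mem hK hA hB ht.1 ht.2
    have hb := gi_sub_le (𝕜 := 𝕜) (f := f) hK hA hB ht.1 ht.2 (f t₀)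
    have hcl : ∀ s ∈ K, |s - t₀| < δ → ‖f s - f t₀‖ < ε / 2 := by
      intro s hs hsd
      have := hfδ hs (by rwa [Real.dist_eq])
      rwa [dist_eq_norm] at this
    have hbd : ∀ s ∈ K, ‖f s - f t₀‖ ≤ 2 * C := by
      intro s hs
      refine (norm_sub_le _ _).trans ?_
      linarith [hC s hs, hC t₀ hk]
    rcases le_total t₀ t with hle | hle
    · have e4 : t₀ ≤ lo K t := e1.2.2 t₀ hk hle
      have e5 : ‖f (lo K t) - f t₀‖ < ε / 2 := hcl _ e1.1 (by
        rw [abs_lt]; constructor <;> linarith [e1.2.1])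
      by_cases e6 : hi K t < t₀ + δ
      · have e7 : ‖f (hi K t) - f t₀‖ < ε / 2 := hcl _ e2.1 (by
          rw [abs_lt]; constructor <;> linarith [e2.2.1])
        nlinarith [e3.1, e3.2]
      · push Not at e6
        have e7 : wt K t * ‖f (hi K t) - f t₀‖ < ε / 2 := by
          have h1 : wt K t ≤ δ' / (δ / 2) := by
            rw [wt]
            refine div_le_div₀ hδ'.le (by linarith) (by positivity) ?_
            linarith
          have h2 : wt K t * ‖f (hi K t) - f t₀‖ ≤ δ' / (δ / 2) * (2 * C) :=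
            mul_le_mul h1 (hbd _ e2.1) (norm_nonneg _) (by positivity)
          refine h2.trans_lt ?_
          rw [div_mul_eq_mul_div, div_lt_iff₀ (by positivity)]
          nlinarith
        nlinarith [e3.1, e3.2, norm_nonneg (f (lo K t) - f t₀)]
    · have e4 : hi K t ≤ t₀ := e2.2.2 t₀ hk hle
      have e5 : ‖f (hi K t) - f t₀‖ < ε / 2 := hcl _ e2.1 (by
        rw [abs_lt]; constructor <;> linarith [e2.2.1])
      by_cases e6 : t₀ - δ < lo K t
      · have e7 : ‖f (lo K t) - f t₀‖ < ε / 2 := hcl _ e1.1 (by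
          rw [abs_lt]; constructor <;> linarith [e1.2.1])
        nlinarith [e3.1, e3.2]
      · push Not at e6
        have e8 : 0 < hi K t - lo K t := by linarith [e2.2.1]
        have e7 : (1 - wt K t) * ‖f (lo K t) - f t₀‖ < ε / 2 := by
          have h1 : 1 - wt K t ≤ δ' / (δ / 2) := by
            have : 1 - wt K t = (hi K t - t) / (hi K t - lo K t) := by
              rw [wt]; field_simp; ring
            rw [this]
            refine div_le_div₀ hδ'.le (by linarith) (by positivity) ?_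
            linarith
          have h2 : (1 - wt K t) * ‖f (lo K t) - f t₀‖ ≤ δ' / (δ / 2) * (2 * C) :=
            mul_le_mul h1 (hbd _ e1.1) (norm_nonneg _) (by positivity)
          refine h2.trans_lt ?_
          rw [div_mul_eq_mul_div, div_lt_iff₀ (by positivity)]
          nlinarith
        nlinarith [e3.1, e3.2, norm_nonneg (f (hi K t) - f t₀)]
  · -- a point of a gap
    have e1 := lo_mem hK hA ht₀.1
    have e2 := hi_mem hK hB ht₀.2
    have e3 : lo K t₀ < t₀ := lt_of_le_of_ne e1.2.1 (fun h => hk (h ▸ e1.1))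
    have e4 : t₀ < hi K t₀ := lt_of_le_of_ne e2.2.1 (fun h => hk (h ▸ e2.1))
    have hev : (fun t => gi 𝕜 K f t) =ᶠ[𝓝 t₀] fun t =>
        ((1 - (t - lo K t₀) / (hi K t₀ - lo K t₀) : ℝ) : 𝕜) • f (lo K t₀) +
        (((t - lo K t₀) / (hi K t₀ - lo K t₀) : ℝ) : 𝕜) • f (hi K t₀) := by
      filter_upwards [Ioo_mem_nhds e3 e4] with t ht
      have hAt : A ≤ t := (e1.2.2 A hA ht₀.1).trans ht.1.le
      have hBt : t ≤ B := ht.2.le.trans (e2.2.2 B hB ht₀.2)
      have f1 := lo_mem hK hA hAt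
      have f2 := hi_mem hK hB hBt
      have g1 : lo K t = lo K t₀ := by
        refine le_antisymm ?_ (f1.2.2 _ e1.1 ht.1.le)
        refine e1.2.2 _ f1.1 ?_
        by_contra h
        push Not at h
        have := e2.2.2 _ f1.1 h.le
        linarith [f1.2.1, ht.2]
      have g2 : hi K t = hi K t₀ := by
        refine le_antisymm (f2.2.2 _ e2.1 ht.2.le) ?_
        refine e2.2.2 _ f2.1 ?_
        by_contra h
        push Not at h
        have := e1.2.2 _ f2.1 h.le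
        linarith [f2.2.1, ht.1]
      rw [gi, wt, g1, g2]
    refine ContinuousAt.continuousWithinAt ?_
    refine (ContinuousAt.congr ?_ hev.symm)
    have c1 : Continuous fun t : ℝ => (t - lo K t₀) / (hi K t₀ - lo K t₀) :=
      (continuous_id.sub continuous_const).div_const _
    exact (((RCLike.continuous_ofReal.comp (continuous_const.sub c1)).smul continuous_const).add
      ((RCLike.continuous_ofReal.comp c1).smul continuous_const)).continuousAt

end

end Pool.Agent.Q192.IA
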