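import Pool.Agent.Q192.IA.UC

/-!
# Operators into `C[0,1]` and curves in the dual
-/

open Filter Topology Set unitInterval

namespace Pool.Agent.Q192.IA

variable {𝕜 X : Type*} [RCLike 𝕜] [NormedAddCommGroup X] [NormedSpace 𝕜 X]

/-- the curve of an operator -/
noncomputable def cv (T : X →L[𝕜] C(I, 𝕜)) (t : I) : StrongDual 𝕜 X :=
  (ContinuousMap.evalCLM 𝕜 t).comp T

@[simp] lemma cv_apply (T : X →L[𝕜] C(I, 𝕜)) (t : I) (x : X) : cv T t x = T x t := rfl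

lemma norm_apply_le (T : X →L[𝕜] C(I, 𝕜)) (t : I) (x : X) : ‖cv T t x‖ ≤ ‖T x‖ :=
  (T x).norm_coe_le_norm t

lemma cv_norm_le {T : X →L[𝕜] C(I, 𝕜)} {ε : ℝ} (h : IsEpsIsometric ε T) (hε : -1 ≤ ε) (t : I) :
    ‖cv T t‖ ≤ 1 + ε :=
  (cv T t).opNorm_le_bound (by linarith) fun x => (norm_apply_le T t x).trans (h x).2

/-- the operator of a curve -/
lemma exists_op (μ : I → StrongDual 𝕜 X) {C : ℝ} (hC : ∀ t, ‖μ t‖ ≤ C)
    (hc : ∀ x, Continuous fun t => μ t x) : ∃ T : X →L[𝕜] C(I, 𝕜), ∀ t, cv T t = μ t := by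
  have hC0 : 0 ≤ C := (norm_nonneg _).trans (hC 0)
  refine ⟨LinearMap.mkContinuous
    { toFun := fun x => ⟨fun t => μ t x, hc x⟩
      map_add' := fun x y => by ext t; exact map_add (μ t) x y
      map_smul' := fun a x => by ext t; exact map_smul (μ t) a x } C ?_, ?_⟩
  · intro x
    refine (ContinuousMap.norm_le _ (by positivity)).2 fun t => ?_
    refine ((μ t).le_opNorm x).trans ?_
    exact mul_le_mul_of_nonneg_right (hC t) (norm_nonneg _)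
  · intro t
    ext x
    rfl

lemma op_sub_le {T V : X →L[𝕜] C(I, 𝕜)} {δ : ℝ} (hδ : 0 ≤ δ) (h : ∀ t, ‖cv T t - cv V t‖ ≤ δ) :
    ‖T - V‖ ≤ δ := by
  refine (T - V).opNorm_le_bound hδ fun x => ?_
  refine (ContinuousMap.norm_le _ (by positivity)).2 fun t => ?_
  have h1 : ((T - V) x) t = (cv T t - cv V t) x := rfl
  rw [h1]
  exact ((cv T t - cv V t).le_opNorm x).trans (mul_le_mul_of_nonneg_right (h t) (norm_nonneg _))

lemma sub_le_op {T V : X →L[𝕜] C(I, 𝕜)} {δ : ℝ} (h : ‖T - V‖ ≤ δ) (t : I) :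
    ‖cv T t - cv V t‖ ≤ δ := by
  refine (ContinuousLinearMap.opNorm_le_bound _ (norm_nonneg (T - V)) fun x => ?_).trans h
  have h1 : (cv T t - cv V t) x = ((T - V) x) t := rfl
  rw [h1]
  exact (((T - V) x).norm_coe_le_norm t).trans ((T - V).le_opNorm x)

lemma exists_norming {z : StrongDual 𝕜 X} (hz : ‖z‖ = 1) {κ : ℝ} (hκ : 0 < κ) :
    ∃ x : X, ‖x‖ ≤ 1 ∧ 1 - κ < RCLike.re (z x) ∧ z x = ((‖z x‖ : ℝ) : 𝕜) := by
  obtain ⟨x, hx1, hx2⟩ := z.exists_lt_apply_of_lt_opNorm (r := 1 - κ) (by rw [hz]; linarith)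
  obtain ⟨u, hu, hu'⟩ := exists_unimod (z x)
  refine ⟨u • x, ?_, ?_, ?_⟩
  · rw [norm_smul, hu, one_mul]; exact hx1.le
  · rw [map_smul, smul_eq_mul, hu', RCLike.ofReal_re]; exact hx2
  · rw [map_smul, smul_eq_mul, norm_mul, hu, one_mul, hu']

lemma isometric_of_hits {V : X →L[𝕜] C(I, 𝕜)} {ε δ : ℝ} (h1 : ∀ t, ‖cv V t‖ ≤ 1 + ε)
    (h2 : ∀ z : StrongDual 𝕜 X, ‖z‖ = 1 → ∃ t, ∃ lam : 𝕜, ‖lam‖ = 1 ∧ ‖cv V t - lam • z‖ ≤ δ)
    (hε : -1 ≤ ε) (hδ : δ ≤ ε) : IsEpsIsometric ε V := by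
  intro x
  constructor
  · by_cases hx : x = 0
    · simp [hx]
    obtain ⟨z, hz1, hz2⟩ := exists_dual_vector 𝕜 x (norm_ne_zero_iff.2 hx)
    obtain ⟨t, lam, hl, ht⟩ := h2 z hz1
    have e1 := norm_apply_le V t x
    have e2 : ‖(cv V t - lam • z) x‖ ≤ δ * ‖x‖ :=
      (ContinuousLinearMap.le_opNorm _ x).trans (mul_le_mul_of_nonneg_right ht (norm_nonneg _))
    have e3 : (cv V t - lam • z) x = cv V t x - lam * z x := rfl
    have e4 : ‖lam * z x‖ = ‖x‖ := by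
      rw [norm_mul, hl, one_mul, hz2, RCLike.norm_ofReal, abs_norm]
    have e5 := norm_sub_norm_le (lam * z x) (cv V t x)
    rw [e3, norm_sub_rev] at e2
    nlinarith [norm_nonneg x]
  · refine (ContinuousMap.norm_le _ ?_).2 fun t => ?_
    · have : 0 ≤ 1 + ε := by linarith
      positivity
    · exact ((cv V t).le_opNorm x).trans (mul_le_mul_of_nonneg_right (h1 t) (norm_nonneg _))

/-- almost isometric operators almost hit every norm one functional -/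
lemma approx_hit (hX : UniformlySmooth 𝕜 X) {ω : ℝ} (hω : 0 < ω) :
    ∃ ε₀ : ℝ, 0 < ε₀ ∧ ∀ ε : ℝ, 0 ≤ ε → ε ≤ ε₀ → ∀ T : X →L[𝕜] C(I, 𝕜), IsEpsIsometric ε T →
      ∀ z : StrongDual 𝕜 X, ‖z‖ = 1 → ∃ t, ∃ lam : 𝕜, ‖lam‖ = 1 ∧ ‖cv T t - lam • z‖ ≤ ω := by
  obtain ⟨κ, hκ0, hκ1, h⟩ := uc (𝕜 := 𝕜) (X := X) hX hω
  refine ⟨κ / 2, by positivity, fun ε hε0 hε T hT z hz => ?_⟩
  obtain ⟨x, hx1, hx2, hx3⟩ := exists_norming hz (κ := κ / 4) (by positivity)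
  have hx4 : 1 - κ / 4 < ‖x‖ := by
    refine hx2.trans_le ((RCLike.re_le_norm _).trans ((z.le_opNorm x).trans ?_))
    rw [hz, one_mul]
  have h1 : 1 - κ < ‖T x‖ := by
    refine lt_of_lt_of_le ?_ (hT x).1
    nlinarith
  have h2 : ∃ t, 1 - κ < ‖T x t‖ := by
    by_contra hcon
    push Not at hcon
    have := (ContinuousMap.norm_le (T x) (by linarith)).2 hcon
    linarith
  obtain ⟨t, ht⟩ := h2
  obtain ⟨u, hu, hu'⟩ := exists_unimod (T x t)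
  refine ⟨t, (starRingEnd 𝕜) u, by rw [RCLike.norm_conj, hu], ?_⟩
  have h3 : ‖u • cv T t - z‖ ≤ ω := by
    refine h _ _ ?_ ?_ x hx1 ?_ ?_
    · rw [norm_smul, hu, one_mul]
      exact (cv_norm_le hT (by linarith) t).trans (by linarith)
    · rw [hz]; linarith
    · have : (u • cv T t) x = u * T x t := rfl
      rw [this, hu', RCLike.ofReal_re]
      exact ht.le
    · linarith
  have h4 : cv T t - (starRingEnd 𝕜) u • z = (starRingEnd 𝕜) u • (u • cv T t - z) := by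
    have e : (starRingEnd 𝕜) u * u = 1 := by
      rw [RCLike.conj_mul, hu]; simp
    have e2 : (starRingEnd 𝕜) u • (u • cv T t - z) =
        (starRingEnd 𝕜) u • (u • cv T t) - (starRingEnd 𝕜) u • z := smul_sub _ _ _
    rw [e2, smul_smul, e, one_smul]
  rw [h4, norm_smul, RCLike.norm_conj, hu, one_mul]
  exact h3

/-- isometric operators hit every norm one functional up to a scalar -/
lemma hit (hX : UniformlySmooth 𝕜 X) {V : X →L[𝕜] C(I, 𝕜)} (hV : IsEpsIsometric 0 V)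
    {z : StrongDual 𝕜 X} (hz : ‖z‖ = 1) : ∃ t, ∃ lam : 𝕜, ‖lam‖ = 1 ∧ cv V t = lam • z := by
  have h1 : ∀ n : ℕ, ∃ p : I × 𝕜, ‖p.2‖ = 1 ∧ ‖cv V p.1 - p.2 • z‖ ≤ 1 / ((n : ℝ) + 1) := by
    intro n
    obtain ⟨ε₀, h0, h2⟩ := approx_hit (𝕜 := 𝕜) (X := X) hX (ω := 1 / ((n : ℝ) + 1)) (by positivity)
    obtain ⟨t, lam, hl, ht⟩ := h2 0 le_rfl h0.le V hV z hz
    exact ⟨(t, lam), hl, ht⟩
  choose p hp1 hp2 using h1
  have hcomp : IsCompact ((univ : Set I) ×ˢ Metric.sphere (0 : 𝕜) 1) :=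
    isCompact_univ.prod (isCompact_sphere _ _)
  obtain ⟨q, hq, ψ, hψ, hlim⟩ := hcomp.tendsto_subseq (x := p)
    (fun n => ⟨mem_univ _, by simpa using hp1 n⟩)
  refine ⟨q.1, q.2, by simpa using hq.2, ?_⟩
  ext x
  have l1 : Tendsto (fun n => V x (p (ψ n)).1) atTop (𝓝 (V x q.1)) :=
    ((V x).continuous.tendsto _).comp ((continuous_fst.tendsto _).comp hlim)
  have l2 : Tendsto (fun n => (p (ψ n)).2 * z x) atTop (𝓝 (q.2 * z x)) :=
    (((continuous_snd.tendsto _).comp hlim).mul tendsto_const_nhds)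
  have l3 : Tendsto (fun n => V x (p (ψ n)).1 - (p (ψ n)).2 * z x) atTop (𝓝 0) := by
    rw [tendsto_zero_iff_norm_tendsto_zero]
    have l4 : Tendsto (fun n : ℕ => 1 / (((ψ n : ℕ) : ℝ) + 1) * ‖x‖) atTop (𝓝 (0 * ‖x‖)) :=
      (tendsto_one_div_add_atTop_nhds_zero_nat.comp hψ.tendsto_atTop).mul_const _
    rw [zero_mul] at l4
    refine squeeze_zero (fun _ => norm_nonneg _) (fun n => ?_) l4
    have e : V x (p (ψ n)).1 - (p (ψ n)).2 * z x = (cv V (p (ψ n)).1 - (p (ψ n)).2 • z) x := rfl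
    rw [e]
    exact (ContinuousLinearMap.le_opNorm _ x).trans
      (mul_le_mul_of_nonneg_right (hp2 _) (norm_nonneg _))
  have l5 := tendsto_nhds_unique (l1.sub l2) l3
  change V x q.1 = q.2 * z x
  exact sub_eq_zero.1 l5

end Pool.Agent.Q192.IA
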