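import Pool.Agent.Q192.IA.Defs

/-!
# `L^p` is uniformly smooth for `1 < p < ∞`
-/

open Filter Topology Set MeasureTheory

namespace Pool.Agent.Q192.IA

/-- uniform differentiability on the unit ball -/
lemma unif_diff {F : Type*} [NormedAddCommGroup F] [NormedSpace ℝ F] [ProperSpace F] {ψ : F → ℝ}
    (hψ : ContDiff ℝ 1 ψ) {η : ℝ} (hη : 0 < η) : ∃ δ : ℝ, 0 < δ ∧ δ ≤ 1 ∧ ∀ a v : F, ‖a‖ ≤ 1 →
      ‖v‖ ≤ δ → ψ (a + v) + ψ (a - v) - 2 * ψ a ≤ η * ‖v‖ := by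
  have hc : Continuous (fderiv ℝ ψ) := hψ.continuous_fderiv one_ne_zero
  have hK : IsCompact (Metric.closedBall (0 : F) 2) := isCompact_closedBall _ _
  obtain ⟨δ, hδ, hu⟩ := Metric.uniformContinuousOn_iff.1
    (hK.uniformContinuousOn_of_continuous hc.continuousOn) (η / 2) (by positivity)
  refine ⟨min (δ / 2) 1, by positivity, min_le_right _ _, fun a v ha hv => ?_⟩
  have hv1 : ‖v‖ < δ := (hv.trans (min_le_left _ _)).trans_lt (by linarith)
  have hv2 : ‖v‖ ≤ 1 := hv.trans (min_le_right _ _)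
  have key : ∀ w : F, ‖w‖ < δ → ‖w‖ ≤ 1 → ‖ψ (a + w) - ψ a - fderiv ℝ ψ a w‖ ≤ η / 2 * ‖w‖ := by
    intro w hw1 hw2
    have h1 : ∀ y ∈ segment ℝ a (a + w), ‖y - a‖ ≤ ‖w‖ := by
      intro y hy
      rw [segment_eq_image'] at hy
      obtain ⟨θ, hθ, rfl⟩ := hy
      simp only [add_sub_cancel_left]
      rw [norm_smul, Real.norm_of_nonneg hθ.1]
      nlinarith [hθ.2, norm_nonneg w]
    have h2 := (convex_segment a (a + w)).norm_image_sub_le_of_norm_fderiv_le' (𝕜 := ℝ)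
      (f := ψ) (φ := fderiv ℝ ψ a) (C := η / 2)
      (fun y _ => (hψ.differentiable one_ne_zero).differentiableAt) (fun y hy => by
        have h3 := h1 y hy
        have h4 := hu y (by
          rw [mem_closedBall_zero_iff]
          have : y = (y - a) + a := by abel
          rw [this]
          exact (norm_add_le _ _).trans (by linarith)) a (by
          rw [mem_closedBall_zero_iff]; linarith) (by rw [dist_eq_norm]; linarith)
        rw [dist_eq_norm] at h4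
        exact h4.le) (left_mem_segment ℝ a (a + w)) (right_mem_segment ℝ a (a + w))
    simpa using h2
  have e1 := key v hv1 hv2
  have e2 := key (-v) (by rwa [norm_neg]) (by rwa [norm_neg])
  rw [map_neg, norm_neg, ← sub_eq_add_neg] at e2
  have f1 := (abs_le.1 e1).2
  have f2 := (abs_le.1 e2).2
  linarith

/-- the pointwise inequality -/
lemma pointwise {F : Type*} [NormedAddCommGroup F] [InnerProductSpace ℝ F] [ProperSpace F]
    {p : ℝ} (hp : 1 < p) {η : ℝ} (hη : 0 < η) : ∃ δ : ℝ, 0 < δ ∧ ∀ t : ℝ, 0 ≤ t → t ≤ δ →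
      ∀ a b : F, ‖a + t • b‖ ^ p + ‖a - t • b‖ ^ p ≤ 2 * ‖a‖ ^ p + η * t * (‖a‖ ^ p + ‖b‖ ^ p) := by
  have hp0 : 0 < p := by linarith
  obtain ⟨δ, hδ, hδ1, h⟩ := unif_diff (F := F) (contDiff_norm_rpow hp) hη
  refine ⟨δ, hδ, fun t ht0 htδ a b => ?_⟩
  have ha0 : 0 ≤ ‖a‖ ^ p := by positivity
  have hb0 : 0 ≤ ‖b‖ ^ p := by positivity
  rcases (add_nonneg ha0 hb0).eq_or_lt with hN | hN
  · have ha' : ‖a‖ ^ p = 0 := by linarith
    have hb' : ‖b‖ ^ p = 0 := by linarith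
    rw [Real.rpow_eq_zero (norm_nonneg _) hp0.ne', norm_eq_zero] at ha' hb'
    subst ha' hb'
    simp [Real.zero_rpow hp0.ne']
  · obtain ⟨N, hNdef⟩ : ∃ N : ℝ, N = ‖a‖ ^ p + ‖b‖ ^ p := ⟨_, rfl⟩
    rw [← hNdef] at hN ⊢
    obtain ⟨s, hs⟩ : ∃ s : ℝ, s = N ^ (-p⁻¹) := ⟨_, rfl⟩
    have hspos : 0 < s := by rw [hs]; exact Real.rpow_pos_of_pos hN _
    have hsp : s ^ p = N⁻¹ := by
      rw [hs, ← Real.rpow_mul hN.le]
      have : -p⁻¹ * p = -1 := by field_simp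
      rw [this, Real.rpow_neg_one]
    have hsc : ∀ v : F, ‖s • v‖ ^ p = N⁻¹ * ‖v‖ ^ p := by
      intro v
      rw [norm_smul, Real.norm_of_nonneg hspos.le, Real.mul_rpow hspos.le (norm_nonneg _), hsp]
    have hle1 : ∀ v : F, ‖v‖ ^ p ≤ N → ‖s • v‖ ≤ 1 := by
      intro v hv
      have h1 : ‖s • v‖ ^ p ≤ 1 := by
        rw [hsc, inv_mul_le_iff₀ hN, mul_one]; exact hv
      by_contra hcon
      push Not at hcon
      have := Real.one_lt_rpow hcon hp0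
      linarith
    have h1 := h (s • a) (t • s • b) (hle1 a (by linarith)) (by
      rw [norm_smul, Real.norm_of_nonneg ht0]
      have := hle1 b (by linarith)
      nlinarith [norm_nonneg (s • b)])
    have h2 : ‖t • s • b‖ ≤ t := by
      rw [norm_smul, Real.norm_of_nonneg ht0]
      have := hle1 b (by linarith)
      nlinarith [norm_nonneg (s • b)]
    rw [smul_comm t s b, ← smul_add, ← smul_sub] at h1
    simp only [hsc] at h1
    rw [smul_comm t s b] at h2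
    have h3 : N⁻¹ * ‖a + t • b‖ ^ p + N⁻¹ * ‖a - t • b‖ ^ p - 2 * (N⁻¹ * ‖a‖ ^ p) ≤ η * t :=
      h1.trans (mul_le_mul_of_nonneg_left h2 hη.le)
    have h4 : N⁻¹ * (‖a + t • b‖ ^ p + ‖a - t • b‖ ^ p - 2 * ‖a‖ ^ p) ≤ η * t := by linarith
    rw [inv_mul_le_iff₀ hN] at h4
    linarith

variable {𝕜 : Type*} [RCLike 𝕜]

lemma pointwise' (𝕜 : Type*) [RCLike 𝕜] {p : ℝ} (hp : 1 < p) {η : ℝ} (hη : 0 < η) :
    ∃ δ : ℝ, 0 < δ ∧ ∀ t : ℝ, 0 ≤ t → t ≤ δ → ∀ a b : 𝕜,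
      ‖a + (t : 𝕜) * b‖ ^ p + ‖a - (t : 𝕜) * b‖ ^ p ≤
        2 * ‖a‖ ^ p + η * t * (‖a‖ ^ p + ‖b‖ ^ p) := by
  let _ : InnerProductSpace ℝ 𝕜 := InnerProductSpace.rclikeToReal 𝕜 𝕜
  have : ProperSpace 𝕜 := FiniteDimensional.proper_rclike 𝕜 𝕜
  obtain ⟨δ, hδ, h⟩ := pointwise (F := 𝕜) hp hη
  refine ⟨δ, hδ, fun t h0 h1 a b => ?_⟩
  exact h t h0 h1 a b

variable {α : Type*} [MeasurableSpace α] {μ : Measure α}

theorem norm_rpow_eq {p : ℝ} (hp : 1 < p) (a : Lp 𝕜 (ENNReal.ofReal p) μ) :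
    ‖a‖ ^ p = ∫ x, ‖a x‖ ^ p ∂μ := by
  have hp0 : 0 < p := by linarith
  have h1 : ENNReal.ofReal p ≠ 0 := by
    rw [Ne, ENNReal.ofReal_eq_zero]; linarith
  have h2 := (Lp.memLp a).eLpNorm_eq_integral_rpow_norm h1 ENNReal.ofReal_ne_top
  rw [ENNReal.toReal_ofReal hp0.le] at h2
  have h3 : 0 ≤ ∫ x, ‖a x‖ ^ p ∂μ := integral_nonneg (fun x => by positivity)
  rw [Lp.norm_def, h2, ENNReal.toReal_ofReal (by positivity), ← Real.rpow_mul h3,
    inv_mul_cancel₀ hp0.ne', Real.rpow_one]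

theorem integrable_rpow {p : ℝ} (hp : 1 < p)
    (a : Lp 𝕜 (ENNReal.ofReal p) μ) : Integrable (fun x => ‖a x‖ ^ p) μ := by
  have hp0 : 0 < p := by linarith
  have h1 : ENNReal.ofReal p ≠ 0 := by
    rw [Ne, ENNReal.ofReal_eq_zero]; linarith
  have h2 := (Lp.memLp a).integrable_norm_rpow h1 ENNReal.ofReal_ne_top
  rwa [ENNReal.toReal_ofReal hp0.le] at h2

theorem lp_ineq {p : ℝ} (hp : 1 < p) [Fact (1 ≤ ENNReal.ofReal p)] {η : ℝ} (hη : 0 < η) :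
    ∃ δ : ℝ, 0 < δ ∧ ∀ t : ℝ, 0 ≤ t → t ≤ δ → ∀ a b : Lp 𝕜 (ENNReal.ofReal p) μ,
      ‖a + (t : 𝕜) • b‖ ^ p + ‖a - (t : 𝕜) • b‖ ^ p ≤
        2 * ‖a‖ ^ p + η * t * (‖a‖ ^ p + ‖b‖ ^ p) := by
  obtain ⟨δ, hδ, h⟩ := pointwise' 𝕜 hp hη
  refine ⟨δ, hδ, fun t h0 h1 a b => ?_⟩
  have ia := integrable_rpow hp a
  have ib := integrable_rpow hp b
  have i1 := integrable_rpow hp (a + (t : 𝕜) • b)
  have i2 := integrable_rpow hp (a - (t : 𝕜) • b)
  have i3 : Integrable (fun x => 2 * ‖a x‖ ^ p) μ := ia.const_mul 2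
  have i4 : Integrable (fun x => η * t * (‖a x‖ ^ p + ‖b x‖ ^ p)) μ := (ia.add ib).const_mul _
  rw [norm_rpow_eq hp, norm_rpow_eq hp (a - (t : 𝕜) • b), norm_rpow_eq hp a, norm_rpow_eq hp b,
    ← integral_add i1 i2]
  have e : 2 * ∫ x, ‖a x‖ ^ p ∂μ + η * t * (∫ x, ‖a x‖ ^ p ∂μ + ∫ x, ‖b x‖ ^ p ∂μ) =
      ∫ x, (2 * ‖a x‖ ^ p + η * t * (‖a x‖ ^ p + ‖b x‖ ^ p)) ∂μ := by
    rw [integral_add i3 i4, integral_const_mul, integral_const_mul, integral_add ia ib]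
  rw [e]
  refine integral_mono_ae (i1.add i2) (i3.add i4) ?_
  filter_upwards [Lp.coeFn_add a ((t : 𝕜) • b), Lp.coeFn_sub a ((t : 𝕜) • b),
    Lp.coeFn_smul (t : 𝕜) b] with x h2 h3 h4
  have h5 := h t h0 h1 (a x) (b x)
  change ‖(a + (t : 𝕜) • b : Lp 𝕜 (ENNReal.ofReal p) μ) x‖ ^ p +
    ‖(a - (t : 𝕜) • b : Lp 𝕜 (ENNReal.ofReal p) μ) x‖ ^ p ≤ _
  rw [h2, h3]
  simp only [Pi.add_apply, Pi.sub_apply, h4, Pi.smul_apply, smul_eq_mul]
  exact h5

/-- `L^p` is uniformly smooth for `1 < p < ∞` -/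
theorem lp_smooth {p : ℝ} (hp : 1 < p) [Fact (1 ≤ ENNReal.ofReal p)] :
    UniformlySmooth 𝕜 (Lp 𝕜 (ENNReal.ofReal p) μ) := by
  rw [UniformlySmooth, Metric.tendsto_nhds]
  intro ε hε
  obtain ⟨δ, hδ, h⟩ := lp_ineq (𝕜 := 𝕜) (μ := μ) hp (η := ε / 2) (by positivity)
  have h1 : ∀ᶠ t : ℝ in 𝓝[>] 0, t < δ := mem_nhdsWithin_of_mem_nhds (gt_mem_nhds hδ)
  filter_upwards [h1, self_mem_nhdsWithin] with t ht1 (ht0 : 0 < t)
  have h2 : 0 ≤ rho 𝕜 (Lp 𝕜 (ENNReal.ofReal p) μ) t := by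
    refine Real.sSup_nonneg ?_
    rintro r ⟨x, y, hx, hy, rfl⟩
    have e1 := norm_add_le (x + (t : 𝕜) • y) (x - (t : 𝕜) • y)
    have e2 : (x + (t : 𝕜) • y) + (x - (t : 𝕜) • y) = (2 : 𝕜) • x := by
      rw [two_smul]; abel
    rw [e2, norm_smul, hx, RCLike.norm_two] at e1
    linarith
  have h3 : rho 𝕜 (Lp 𝕜 (ENNReal.ofReal p) μ) t ≤ ε / 2 * t := by
    refine Real.sSup_le ?_ (by positivity)
    rintro r ⟨x, y, hx, hy, rfl⟩
    have e1 := h t ht0.le ht1.le x y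
    rw [hx, hy, Real.one_rpow] at e1
    have hB : ∀ A : ℝ, 0 ≤ A → 1 + p * (A - 1) ≤ A ^ p := by
      intro A hA
      have := one_add_mul_self_le_rpow_one_add (s := A - 1) (by linarith) hp.le
      rwa [add_sub_cancel] at this
    have e2 := hB _ (norm_nonneg (x + (t : 𝕜) • y))
    have e3 := hB _ (norm_nonneg (x - (t : 𝕜) • y))
    have e4 : p * (‖x + (t : 𝕜) • y‖ + ‖x - (t : 𝕜) • y‖ - 2) ≤ ε * t := by linarith
    by_contra hcon
    push Not at hcon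
    have e5 : ε * t < ‖x + (t : 𝕜) • y‖ + ‖x - (t : 𝕜) • y‖ - 2 := by linarith
    have e6 : 0 < ε * t := by positivity
    nlinarith
  rw [Real.dist_eq, sub_zero, abs_of_nonneg (div_nonneg h2 ht0.le), div_lt_iff₀ ht0]
  nlinarith

/-- `L^p[0,1]` is infinite-dimensional -/
theorem lp_infinite {p : ℝ} [Fact (1 ≤ ENNReal.ofReal p)] :
    ¬ FiniteDimensional 𝕜 (Lp 𝕜 (ENNReal.ofReal p) (volume.restrict (Icc (0 : ℝ) 1))) := by
  intro hfin
  have hmem : ∀ q : Polynomial 𝕜, MemLp (fun x : ℝ => q.eval (x : 𝕜)) (ENNReal.ofReal p)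
      (volume.restrict (Icc (0 : ℝ) 1)) := by
    intro q
    have hc : Continuous fun x : ℝ => q.eval (x : 𝕜) := q.continuous.comp RCLike.continuous_ofReal
    obtain ⟨C, hC⟩ := isCompact_Icc.exists_bound_of_continuousOn (s := Icc (0 : ℝ) 1)
      hc.continuousOn
    refine MemLp.of_bound hc.aestronglyMeasurable C ?_
    exact (ae_restrict_iff' measurableSet_Icc).2 (Eventually.of_forall hC)
  let f : Polynomial 𝕜 →ₗ[𝕜] Lp 𝕜 (ENNReal.ofReal p) (volume.restrict (Icc (0 : ℝ) 1)) :=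
    { toFun := fun q => (hmem q).toLp
      map_add' := fun q r => by
        rw [← MemLp.toLp_add (hmem q) (hmem r)]
        refine MemLp.toLp_congr _ _ (Eventually.of_forall fun x => ?_)
        simp
      map_smul' := fun c q => by
        rw [RingHom.id_apply, ← MemLp.toLp_const_smul c (hmem q)]
        refine MemLp.toLp_congr _ _ (Eventually.of_forall fun x => ?_)
        simp }
  have hinj : Function.Injective f := by
    rw [injective_iff_map_eq_zero]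
    intro q hq
    have h1 : (fun x : ℝ => q.eval (x : 𝕜)) =ᵐ[volume.restrict (Icc (0 : ℝ) 1)] 0 := by
      have h2 := (hmem q).coeFn_toLp
      have h3 : ((hmem q).toLp : Lp 𝕜 (ENNReal.ofReal p) (volume.restrict (Icc (0 : ℝ) 1))) = 0 := hq
      rw [h3] at h2
      exact h2.symm.trans (Lp.coeFn_zero _ _ _)
    by_contra hq0
    have hfinr : {x : ℝ | q.eval (x : 𝕜) = 0}.Finite := by
      have h2 : {a : 𝕜 | q.IsRoot a}.Finite := q.finite_setOfPred_isRoot hq0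
      exact h2.preimage (RCLike.ofReal_injective.injOn)
    have h4 : volume.restrict (Icc (0 : ℝ) 1) {x : ℝ | q.eval (x : 𝕜) = 0} = 0 :=
      hfinr.measure_zero _
    have h5 : volume.restrict (Icc (0 : ℝ) 1) {x : ℝ | q.eval (x : 𝕜) = 0}ᶜ = 0 := h1
    have h6 : volume.restrict (Icc (0 : ℝ) 1) univ = 0 := by
      rw [← union_compl_self {x : ℝ | q.eval (x : 𝕜) = 0}]
      exact measure_union_null h4 h5
    rw [Measure.restrict_apply_univ, Real.volume_Icc] at h6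
    simp at h6
  exact Polynomial.not_finite (R := 𝕜) (FiniteDimensional.of_injective f hinj)

end Pool.Agent.Q192.IA
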