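import Pool.Agent.Q192.IA.Avoid

/-!
# Separable infinite-dimensional spaces
-/

open Filter Topology Set unitInterval

namespace Pool.Agent.Q192.IA

variable {𝕜 X : Type*} [RCLike 𝕜] [NormedAddCommGroup X] [NormedSpace 𝕜 X]

/-- the intermediate value step -/
lemma exists_beta {z₀ e : StrongDual 𝕜 X} {τ₀ : ℝ} (h0 : ‖z₀‖ ≤ τ₀) (h1 : τ₀ < 1) (he : ‖e‖ = 1) :
    ∃ β : ℝ, 1 - τ₀ ≤ β ∧ β ≤ 1 + τ₀ ∧ ‖z₀ + (β : 𝕜) • e‖ = 1 := by
  have hτ : 0 ≤ τ₀ := (norm_nonneg _).trans h0
  have hc : Continuous fun β : ℝ => ‖z₀ + (β : 𝕜) • e‖ := by fun_prop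
  have hn : ∀ β : ℝ, 0 ≤ β → ‖(β : 𝕜) • e‖ = β := fun β hβ => by
    rw [norm_smul, he, RCLike.norm_ofReal, abs_of_nonneg hβ, mul_one]
  have h2 : ‖z₀ + ((1 - τ₀ : ℝ) : 𝕜) • e‖ ≤ 1 := by
    refine (norm_add_le _ _).trans ?_
    rw [hn _ (by linarith)]
    linarith
  have h3 : 1 ≤ ‖z₀ + ((1 + τ₀ : ℝ) : 𝕜) • e‖ := by
    have h4 := norm_sub_le (z₀ + ((1 + τ₀ : ℝ) : 𝕜) • e) z₀
    rw [add_sub_cancel_left, hn _ (by linarith)] at h4
    linarith
  obtain ⟨β, hβ, hβ1⟩ := intermediate_value_Icc (by linarith : 1 - τ₀ ≤ 1 + τ₀) hc.continuousOn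
    ⟨h2, h3⟩
  exact ⟨β, hβ.1, hβ.2, hβ1⟩

theorem sep_case (hX : UniformlySmooth 𝕜 X) (hsep : TopologicalSpace.SeparableSpace X)
    (hinf : ¬ FiniteDimensional 𝕜 X) :
    ∃ δ₀ : ℝ, 0 < δ₀ ∧ ∃ η₀ : ℝ, 0 < η₀ ∧ ∀ η : ℝ, 0 < η → η ≤ η₀ →
      ∃ T : X →L[𝕜] C(I, 𝕜), IsEpsIsometric η T ∧
        ∀ V : X →L[𝕜] C(I, 𝕜), IsEpsIsometric 0 V → δ₀ < ‖T - V‖ := by
  classical
  obtain ⟨κ, hκ0, hκ1, hUC⟩ := uc (𝕜 := 𝕜) (X := X) hX (ω := 1 / 8) (by norm_num)
  obtain ⟨τ, hτκ⟩ : ∃ τ : ℝ, τ = κ / 2 := ⟨_, rfl⟩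
  have hτ0 : 0 < τ := by rw [hτκ]; positivity
  have hτ1 : τ ≤ 1 / 8 := by rw [hτκ]; linarith
  have hκτ : κ = 2 * τ := by rw [hτκ]; ring
  obtain ⟨x, hli, hx1, hx⟩ := exists_basis_seq (𝕜 := 𝕜) hsep hinf
  obtain ⟨e, u, he1, hu1, heu, hex, heu0⟩ := exists_en (𝕜 := 𝕜) hinf x hτ0
  obtain ⟨b, hbc, hb1, hb⟩ := exists_cantor 𝕜
  obtain ⟨γ, hγc, hγi, hγm⟩ := exists_gamma2
  have hsepY := dual_separable (𝕜 := 𝕜) (X := X) hX hsep
  refine ⟨τ / 4, by positivity, min κ (1 / 8), by positivity, fun η hη hη0 => ?_⟩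
  have hηκ : η ≤ κ := hη0.trans (min_le_left _ _)
  have hη8 : η ≤ 1 / 8 := hη0.trans (min_le_right _ _)
  -- enumeration of the patterns
  obtain ⟨en, hen⟩ := exists_surjective_nat (Finset Pat)
  obtain ⟨A, hA⟩ : ∃ A : ℕ → Set Om, A = fun N =>
    if Dn b x (1 / 8) (1 / 4) η (cylU (en (Nat.unpair N).1)) then cylU (en (Nat.unpair N).1)
    else univ := ⟨_, rfl⟩
  have hAcl : ∀ N, IsClosed (A N) := by
    intro N
    rw [hA]
    simp only
    split_ifs
    · exact isClosed_cylU _
    · exact isClosed_univ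
  have hADn : ∀ N, Dn b x (1 / 8) (1 / 4) η (A N) := by
    intro N
    rw [hA]
    simp only
    split_ifs with h
    · exact h
    · exact fun l hl => ⟨l, DD_mono (by norm_num) hl, mem_univ _, by simpa using hη.le⟩
  -- the closed sets of codes
  obtain ⟨C, hC0, hCs⟩ : ∃ C : ℕ → Set Om,
      C 0 = {c | c ∈ DD b x 1 ∧ ∀ N, ‖phi b x c (u N)‖ ≤ 1 - 2 * τ} ∧
      ∀ N, C (N + 1) = {c | c ∈ DD b x (1 / 4) ∧ c ∈ A N ∧ ‖e N + phi b x c‖ ≤ 1 + η} :=
    ⟨fun n => n.rec {c | c ∈ DD b x 1 ∧ ∀ N, ‖phi b x c (u N)‖ ≤ 1 - 2 * τ}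
      (fun N _ => {c | c ∈ DD b x (1 / 4) ∧ c ∈ A N ∧ ‖e N + phi b x c‖ ≤ 1 + η}), rfl,
      fun N => rfl⟩
  obtain ⟨v, hv0, hvs⟩ : ∃ v : ℕ → StrongDual 𝕜 X, v 0 = 0 ∧ ∀ N, v (N + 1) = e N :=
    ⟨fun n => n.rec 0 (fun N _ => e N), rfl, fun N => rfl⟩
  have hCcl : ∀ n, IsClosed (C n) := by
    intro n
    rcases n with _ | N
    · rw [hC0]
      have h1 : {c | c ∈ DD b x 1 ∧ ∀ N, ‖phi b x c (u N)‖ ≤ 1 - 2 * τ} =
          ⋂ N, (DD b x 1 ∩ (fun c => phi b x c (u N)) ⁻¹' Metric.closedBall 0 (1 - 2 * τ)) := by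
        ext c
        simp only [mem_ofPred_eq, mem_iInter, mem_inter_iff, mem_preimage,
          mem_closedBall_zero_iff]
        exact ⟨fun h N => ⟨h.1, h.2 N⟩, fun h => ⟨(h 0).1, fun N => (h N).2⟩⟩
      rw [h1]
      exact isClosed_iInter fun N => (phi_continuousOn hx hbc (u N)).preimage_isClosed_of_isClosed
        (isClosed_DD hbc 1) Metric.isClosed_closedBall
    · rw [hCs]
      have h1 : {c | c ∈ DD b x (1 / 4) ∧ c ∈ A N ∧ ‖e N + phi b x c‖ ≤ 1 + η} =
          A N ∩ ⋂ z : X, (DD b x (1 / 4) ∩ (fun c => phi b x c z) ⁻¹'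
            {a | ‖e N z + a‖ ≤ (1 + η) * ‖z‖}) := by
        ext c
        simp only [mem_ofPred_eq, mem_iInter, mem_inter_iff, mem_preimage]
        constructor
        · rintro ⟨h1, h2, h3⟩
          refine ⟨h2, fun z => ⟨h1, ?_⟩⟩
          exact ((e N + phi b x c).le_opNorm z).trans
            (mul_le_mul_of_nonneg_right h3 (norm_nonneg _))
        · rintro ⟨h1, h2⟩
          exact ⟨(h2 0).1, h1, (e N + phi b x c).opNorm_le_bound (by positivity)
            fun z => (h2 z).2⟩
      rw [h1]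
      refine (hAcl N).inter (isClosed_iInter fun z => ?_)
      refine (phi_continuousOn hx hbc z).preimage_isClosed_of_isClosed (isClosed_DD hbc _) ?_
      exact isClosed_le (continuous_const.add continuous_id).norm continuous_const
  have hKcl : IsClosed (KK C (DD b x (1 / 4))) :=
    isClosed_KK hCcl (isClosed_DD hbc _) (fun N c hc => by rw [hCs] at hc; exact hc.1)
  have hvz : ∀ z : X, Tendsto (fun n => v n z) atTop (𝓝 0) := by
    intro z
    rw [← tendsto_add_atTop_iff_nat 1]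
    simp only [hvs]
    exact tendsto_en hx he1 hex z
  have hCsub : ∀ n, C n ⊆ DD b x 1 := by
    intro n c hc
    rcases n with _ | N
    · rw [hC0] at hc; exact hc.1
    · rw [hCs] at hc; exact DD_mono (by norm_num) hc.1
  have hKsub : KK C (DD b x (1 / 4)) ⊆ Sts ×ˢ DD b x 1 := by
    rintro p (⟨n, h, h2⟩ | ⟨h, h2⟩)
    · exact ⟨h ▸ st_mem n, hCsub n h2⟩
    · exact ⟨h ▸ tp_mem, DD_mono (by norm_num) h2⟩
  obtain ⟨T, hT1, hT2, hT3⟩ := exists_T hγc hγi hγm hKcl
    (fun p => vv v p.1 + phi b x p.2) (C := 1 + η) (by positivity) (by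
      rintro p (⟨n, h, h2⟩ | ⟨h, h2⟩)
      · rw [h, vv_st]
        rcases n with _ | N
        · rw [hv0, zero_add]
          exact (phi_spec hx (hCsub 0 h2)).1.trans (by linarith)
        · rw [hvs]
          rw [hCs] at h2
          exact h2.2.2
      · rw [h, vv_tp, zero_add]
        exact (phi_spec hx h2).1.trans (by linarith)) (by
      intro z
      have h1 : ContinuousOn (fun p : Om × Om => vv v p.1 z) (KK C (DD b x (1 / 4))) :=
        (vv_continuousOn (hvz z)).comp continuousOn_fst fun p hp => (hKsub hp).1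
      have h2 : ContinuousOn (fun p : Om × Om => phi b x p.2 z) (KK C (DD b x (1 / 4))) :=
        (phi_continuousOn hx hbc z).comp continuousOn_snd fun p hp => (hKsub hp).2
      exact h1.add h2)
  refine ⟨T, ?_, ?_⟩
  · -- `T` is almost isometric
    refine isometric_of_hits (δ := η) hT1 (fun z hz => ?_) (by linarith) le_rfl
    by_cases hfar : ∀ N, ‖z (u N)‖ ≤ 1 - 2 * τ
    · obtain ⟨c, hc1, hc2⟩ := exists_code hx hb hx1 le_rfl hz.le
      have hp : ((st 0, c) : Om × Om) ∈ KK C (DD b x (1 / 4)) :=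
        Or.inl ⟨0, rfl, by rw [hC0]; exact ⟨hc1, fun N => by rw [hc2]; exact hfar N⟩⟩
      refine ⟨⟨γ (st 0, c), hγm _⟩, 1, by simp, ?_⟩
      rw [hT2 _ hp]
      simp only [vv_st, hv0, hc2, zero_add, one_smul, sub_self, norm_zero]
      exact hη.le
    · push Not at hfar
      obtain ⟨N, hN⟩ := hfar
      obtain ⟨w, hw, hw'⟩ := exists_unimod (z (u N))
      have hwz : ‖w • z‖ = 1 := by rw [norm_smul, hw, hz, one_mul]
      have h1 : ‖w • z - e N‖ ≤ 1 / 8 := by
        refine hUC _ _ (by rw [hwz]; linarith) (by rw [he1]; linarith) (u N) (hu1 N) ?_ ?_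
        · have : (w • z) (u N) = w * z (u N) := rfl
          rw [this, hw', RCLike.ofReal_re]
          linarith
        · linarith [heu N]
      obtain ⟨l, hl1, hl2⟩ := exists_code hx hb hx1 (by norm_num : (1 / 8 : ℝ) ≤ 1) h1
      obtain ⟨l', hl'1, hl'2, hl'3⟩ := hADn N l hl1
      have hsub : e N + phi b x l = w • z := by rw [hl2]; abel
      have hp : ((st (N + 1), l') : Om × Om) ∈ KK C (DD b x (1 / 4)) := by
        refine Or.inl ⟨N + 1, rfl, ?_⟩
        rw [hCs]
        refine ⟨hl'1, hl'2, ?_⟩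
        have : e N + phi b x l' = w • z - (phi b x l - phi b x l') := by rw [← hsub]; abel
        rw [this]
        refine (norm_sub_le _ _).trans ?_
        rw [hwz]
        linarith
      refine ⟨⟨γ (st (N + 1), l'), hγm _⟩, w, hw, ?_⟩
      rw [hT2 _ hp]
      simp only [vv_st, hvs]
      have : e N + phi b x l' - w • z = -(phi b x l - phi b x l') := by rw [← hsub]; abel
      rw [this, norm_neg]
      exact hl'3
  · -- no isometry is near
    intro V hV
    by_contra hcon
    push Not at hcon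
    obtain ⟨Ψ, hΨ⟩ : ∃ Ψ : Om → StrongDual 𝕜 X, ∀ s, Ψ s = cv V ⟨γ (tp, s), hγm _⟩ :=
      ⟨_, fun _ => rfl⟩
    have hΨc : ∀ z, Continuous fun s => Ψ s z := by
      intro z
      simp only [hΨ, cv_apply]
      exact (V z).continuous.comp (Continuous.subtype_mk
        (hγc.comp (Continuous.prodMk_right tp)) _)
    obtain ⟨z₀, hz₀, Q, hQ1, hQ2⟩ := avoid hx hbc hb hx1 hli hsepY (he1 0) hη
      (by linarith : (1 / 8 : ℝ) + η ≤ 1 / 4) (by norm_num : (1 / 4 : ℝ) ≤ 1)
      (by positivity : 0 < τ / 8) hΨc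
    obtain ⟨k₀, hk₀⟩ := hen Q
    have hAQ : ∀ j, A (Nat.pair k₀ j) = cylU Q := by
      intro j
      rw [hA]
      simp only [Nat.unpair_pair, hk₀]
      rw [if_pos hQ1]
    -- the main step
    have hstep : ∀ N, ∃ (t : I) (lam : 𝕜) (s : Om) (β : ℝ), ‖lam‖ = 1 ∧ 1 - τ / 8 ≤ β ∧
        β ≤ 1 + τ / 8 ∧ cv V t = lam • (z₀ + (β : 𝕜) • e N) ∧ s ∈ A N ∧
        ((st (N + 1), s) : Om × Om) ∈ KK C (DD b x (1 / 4)) ∧
        ∀ q ∈ KK C (DD b x (1 / 4)), ¬ (((t : ℝ) < γ q ∧ γ q < γ (st (N + 1), s)) ∨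
          (γ (st (N + 1), s) < γ q ∧ γ q < t)) := by
      intro N
      obtain ⟨β, hβ1, hβ2, hβ3⟩ := exists_beta hz₀ (by linarith) (he1 N)
      obtain ⟨zN, hzN⟩ : ∃ zN : StrongDual 𝕜 X, zN = z₀ + (β : 𝕜) • e N := ⟨_, rfl⟩
      rw [← hzN] at hβ3
      obtain ⟨t, lam, hlam, ht⟩ := hit hX hV hβ3
      have hll : (starRingEnd 𝕜) lam * lam = 1 := by rw [RCLike.conj_mul, hlam]; simp
      have hcl : ‖(starRingEnd 𝕜) lam‖ = 1 := by rw [RCLike.norm_conj, hlam]
      have h1 : ‖cv T t - lam • zN‖ ≤ τ / 4 := by rw [← ht]; exact sub_le_op hcon t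
      have hzu : 1 - τ - τ / 4 ≤ RCLike.re (zN (u N)) := by
        have e1 : zN (u N) = z₀ (u N) + (β : 𝕜) * e N (u N) := by rw [hzN]; rfl
        rw [e1, map_add, RCLike.re_ofReal_mul]
        have e2 : ‖z₀ (u N)‖ ≤ τ / 8 := by
          refine (z₀.le_opNorm _).trans ?_
          have := hu1 N
          nlinarith [norm_nonneg z₀, norm_nonneg (u N)]
        have e3 := abs_le.1 ((RCLike.abs_re_le_norm (z₀ (u N))).trans e2)
        nlinarith [heu N, e3.1]
      have hTu : 1 - τ - τ / 2 ≤ RCLike.re ((starRingEnd 𝕜) lam * cv T t (u N)) := by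
        have e1 : (starRingEnd 𝕜) lam * cv T t (u N) = zN (u N) +
            (starRingEnd 𝕜) lam * (cv T t - lam • zN) (u N) := by
          have : (cv T t - lam • zN) (u N) = cv T t (u N) - lam * zN (u N) := rfl
          rw [this, mul_sub, ← mul_assoc, hll]
          ring
        have e2 : ‖(starRingEnd 𝕜) lam * (cv T t - lam • zN) (u N)‖ ≤ τ / 4 := by
          rw [norm_mul, hcl, one_mul]
          refine ((cv T t - lam • zN).le_opNorm _).trans ?_
          have := hu1 N
          nlinarith [norm_nonneg (cv T t - lam • zN), norm_nonneg (u N)]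
        have e3 := abs_le.1 ((RCLike.abs_re_le_norm _).trans e2)
        rw [e1, map_add]
        linarith [e3.1]
      obtain ⟨p, hpK, hp1, hp2⟩ := hT3 t (u N) ((starRingEnd 𝕜) lam) (1 - τ - τ / 2)
        (by linarith) hTu
      have hnm : ∀ y : StrongDual 𝕜 X, 1 - τ - τ / 2 ≤ RCLike.re ((starRingEnd 𝕜) lam * y (u N)) →
          1 - τ - τ / 2 ≤ ‖y (u N)‖ := by
        intro y hy
        refine hy.trans ((RCLike.re_le_norm _).trans ?_)
        rw [norm_mul, hcl, one_mul]
      have hphi : ∀ c ∈ DD b x (1 / 4), ∀ M, ‖phi b x c (u M)‖ ≤ 1 / 4 := by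
        intro c hc M
        refine ((phi b x c).le_opNorm _).trans ?_
        have := hu1 M
        have := (phi_spec hx hc).1
        nlinarith [norm_nonneg (phi b x c), norm_nonneg (u M)]
      rcases hpK' : hpK with ⟨n, h2, h3⟩ | ⟨h2, h3⟩
      · rcases n with _ | n
        · exfalso
          have h4 := hnm _ hp1
          rw [h2, vv_st, hv0, zero_add] at h4
          rw [hC0] at h3
          linarith [h3.2 N]
        · have h4 := hnm _ hp1
          rw [h2, vv_st, hvs] at h4 hp1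
          have h3' := h3
          rw [hCs] at h3'
          rcases lt_trichotomy n N with h5 | h5 | h5
          · exfalso
            have h6 : ‖(starRingEnd 𝕜) lam • (e n + phi b x p.2) - zN‖ ≤ 1 / 8 := by
              refine hUC _ _ ?_ (by rw [hβ3]; linarith) (u N) (hu1 N) ?_ (by linarith)
              · rw [norm_smul, hcl, one_mul]
                linarith [h3'.2.2]
              · have : ((starRingEnd 𝕜) lam • (e n + phi b x p.2)) (u N) =
                    (starRingEnd 𝕜) lam * (e n + phi b x p.2) (u N) := rfl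
                rw [this]
                linarith
            have h7 : ‖((starRingEnd 𝕜) lam • (e n + phi b x p.2) - zN) (u n)‖ ≤ 1 / 8 := by
              refine (ContinuousLinearMap.le_opNorm _ _).trans ?_
              have := hu1 n
              nlinarith [norm_nonneg ((starRingEnd 𝕜) lam • (e n + phi b x p.2) - zN),
                norm_nonneg (u n)]
            have h8 : zN (u n) = z₀ (u n) := by
              rw [hzN]
              change z₀ (u n) + (β : 𝕜) * e N (u n) = _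
              rw [heu0 n N h5, mul_zero, add_zero]
            have h9 : ((starRingEnd 𝕜) lam • (e n + phi b x p.2) - zN) (u n) =
                (starRingEnd 𝕜) lam * (e n (u n) + phi b x p.2 (u n)) - z₀ (u n) := by
              rw [← h8]; rfl
            have h10 : ‖z₀ (u n)‖ ≤ τ / 8 := by
              refine (z₀.le_opNorm _).trans ?_
              have := hu1 n
              nlinarith [norm_nonneg z₀, norm_nonneg (u n)]
            have h11 : 1 - τ - 1 / 4 ≤ ‖(starRingEnd 𝕜) lam * (e n (u n) + phi b x p.2 (u n))‖ := by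
              rw [norm_mul, hcl, one_mul]
              have a1 := norm_sub_le (e n (u n) + phi b x p.2 (u n)) (phi b x p.2 (u n))
              rw [add_sub_cancel_right] at a1
              have a2 := RCLike.re_le_norm (e n (u n))
              linarith [heu n, hphi _ h3'.1 n]
            have h12 := norm_sub_norm_le ((starRingEnd 𝕜) lam * (e n (u n) + phi b x p.2 (u n)))
              (z₀ (u n))
            rw [h9] at h7
            linarith
          · subst h5
            have hpe : p = (st (n + 1), p.2) := Prod.ext h2 rfl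
            refine ⟨t, lam, p.2, β, hlam, hβ1, hβ2, ?_, h3'.2.1, ?_, ?_⟩
            · rw [ht, hzN]
            · rw [← hpe]; exact hpK
            · rw [← hpe]; exact hp2
          · exfalso
            have h6 : (e n + phi b x p.2) (u N) = phi b x p.2 (u N) := by
              change e n (u N) + phi b x p.2 (u N) = _
              rw [heu0 N n h5, zero_add]
            rw [h6] at h4
            linarith [hphi _ h3'.1 N]
      · exfalso
        have h4 := hnm _ hp1
        rw [h2, vv_tp, zero_add] at h4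
        linarith [hphi _ h3 N]
    choose t lam s β hlam hβ1 hβ2 hcv hsA hsK hnb using hstep
    -- a convergent subsequence
    have hNmono : StrictMono fun j => Nat.pair k₀ j := strictMono_nat_of_lt_succ fun j =>
      Nat.pair_lt_pair_right k₀ (Nat.lt_succ_self j)
    have hcomp : IsCompact ((univ : Set I) ×ˢ Metric.sphere (0 : 𝕜) 1 ×ˢ cylU Q) :=
      isCompact_univ.prod ((isCompact_sphere _ _).prod (isClosed_cylU Q).isCompact)
    obtain ⟨⟨t', lam', s'⟩, hq, ψ, hψ, hlim⟩ := hcomp.tendsto_subseq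
      (x := fun j => (t (Nat.pair k₀ j), lam (Nat.pair k₀ j), s (Nat.pair k₀ j)))
      (fun j => ⟨mem_univ _, by simpa using hlam _, by rw [← hAQ j]; exact hsA _⟩)
    obtain ⟨M, hM⟩ : ∃ M : ℕ → ℕ, ∀ j, M j = Nat.pair k₀ (ψ j) := ⟨_, fun _ => rfl⟩
    have hMmono : StrictMono M := by
      have : M = (fun j => Nat.pair k₀ j) ∘ ψ := funext hM
      rw [this]
      exact hNmono.comp hψ
    have lt1 : Tendsto (fun j => t (M j)) atTop (𝓝 t') := by
      simp only [hM]
      exact (continuous_fst.tendsto _).comp hlim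
    have lt2 : Tendsto (fun j => lam (M j)) atTop (𝓝 lam') := by
      simp only [hM]
      exact ((continuous_fst.comp continuous_snd).tendsto _).comp hlim
    have lt3 : Tendsto (fun j => s (M j)) atTop (𝓝 s') := by
      simp only [hM]
      exact ((continuous_snd.comp continuous_snd).tendsto _).comp hlim
    have hs' : s' ∈ cylU Q := hq.2.2
    have hlam' : ‖lam'‖ = 1 := by simpa using hq.2.1
    obtain ⟨a, ha⟩ : ∃ a : ℕ → ℝ, ∀ j, a j = γ (st (M j + 1), s (M j)) := ⟨_, fun _ => rfl⟩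
    have lt4 : Tendsto a atTop (𝓝 (γ (tp, s'))) := by
      have h1 : Tendsto (fun j => ((st (M j + 1), s (M j)) : Om × Om)) atTop (𝓝 (tp, s')) :=
        (tendsto_st.comp ((tendsto_add_atTop_nat 1).comp hMmono.tendsto_atTop)).prodMk_nhds lt3
      have h2 := (hγc.tendsto _).comp h1
      refine h2.congr fun j => ?_
      rw [ha]; rfl
    have ltr : Tendsto (fun j => ((t (M j) : I) : ℝ)) atTop (𝓝 (t' : ℝ)) :=
      (continuous_subtype_val.tendsto _).comp lt1
    have hainj : ∀ i j, a i = a j → i = j := by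
      intro i j hij
      rw [ha, ha] at hij
      have h1 := hγi hij
      have h2 : st (M i + 1) = st (M j + 1) := congrArg Prod.fst h1
      have h3 := st_injective h2
      exact hMmono.injective (by omega)
    have hnba : ∀ i j, ¬ (((t (M i) : ℝ) < a j ∧ a j < a i) ∨ (a i < a j ∧ a j < t (M i))) := by
      intro i j
      rw [ha i, ha j]
      exact hnb (M i) _ (hsK (M j))
    -- the limits agree
    have hta : (t' : ℝ) = γ (tp, s') := by
      by_contra hne
      rcases lt_or_gt_of_ne hne with h1 | h1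
      · obtain ⟨m, hm1, hm2⟩ := exists_between h1
        obtain ⟨J, hJ⟩ := eventually_atTop.1 ((ltr.eventually (gt_mem_nhds hm1)).and
          (lt4.eventually (lt_mem_nhds hm2)))
        have h2 := hJ J le_rfl
        have h3 := hJ (J + 1) (Nat.le_succ J)
        rcases lt_trichotomy (a J) (a (J + 1)) with h4 | h4 | h4
        · exact hnba (J + 1) J (Or.inl ⟨by linarith [h3.1, h2.2], h4⟩)
        · have := hainj _ _ h4; omega
        · exact hnba J (J + 1) (Or.inl ⟨by linarith [h2.1, h3.2], h4⟩)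
      · obtain ⟨m, hm1, hm2⟩ := exists_between h1
        obtain ⟨J, hJ⟩ := eventually_atTop.1 ((ltr.eventually (lt_mem_nhds hm2)).and
          (lt4.eventually (gt_mem_nhds hm1)))
        have h2 := hJ J le_rfl
        have h3 := hJ (J + 1) (Nat.le_succ J)
        rcases lt_trichotomy (a J) (a (J + 1)) with h4 | h4 | h4
        · exact hnba J (J + 1) (Or.inr ⟨h4, by linarith [h2.1, h3.2]⟩)
        · have := hainj _ _ h4; omega
        · exact hnba (J + 1) J (Or.inr ⟨h4, by linarith [h3.1, h2.2]⟩)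
    -- the value of `Ψ`
    refine hQ2 s' hs' lam' hlam' ?_
    have hΨs : Ψ s' = cv V t' := by
      rw [hΨ]
      congr 1
      exact Subtype.ext hta.symm
    rw [hΨs]
    ext z
    have l1 : Tendsto (fun j => V z (t (M j))) atTop (𝓝 (V z t')) :=
      ((V z).continuous.tendsto _).comp lt1
    have l2 : Tendsto (fun j => ((β (M j) : ℝ) : 𝕜) * e (M j) z) atTop (𝓝 0) := by
      rw [tendsto_zero_iff_norm_tendsto_zero]
      have l3 : Tendsto (fun j => 2 * ‖e (M j) z‖) atTop (𝓝 (2 * 0)) := by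
        have := (tendsto_en hx he1 hex z).comp hMmono.tendsto_atTop
        exact (tendsto_zero_iff_norm_tendsto_zero.1 this).const_mul 2
      rw [mul_zero] at l3
      refine squeeze_zero (fun _ => norm_nonneg _) (fun j => ?_) l3
      rw [norm_mul, RCLike.norm_ofReal]
      refine mul_le_mul_of_nonneg_right ?_ (norm_nonneg _)
      rw [abs_le]
      constructor <;> linarith [hβ1 (M j), hβ2 (M j)]
    have l4 : Tendsto (fun j => lam (M j) * (z₀ z + ((β (M j) : ℝ) : 𝕜) * e (M j) z)) atTop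
        (𝓝 (lam' * (z₀ z + 0))) := lt2.mul (tendsto_const_nhds.add l2)
    rw [add_zero] at l4
    have l5 : ∀ j, V z (t (M j)) = lam (M j) * (z₀ z + ((β (M j) : ℝ) : 𝕜) * e (M j) z) := by
      intro j
      have := congrArg (fun y : StrongDual 𝕜 X => y z) (hcv (M j))
      exact this
    have l6 := tendsto_nhds_unique (l1.congr l5) l4
    exact l6

end Pool.Agent.Q192.IA
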