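import Pool.Agent.Q192.IA.Hit
import Pool.Agent.Q192.IA.Gap
import Pool.Agent.Q192.IA.Code
import Pool.Agent.Q192.IA.Cantor

/-!
# Stations and the operator of a zero-dimensional compact set of functionals
-/

open Filter Topology Set unitInterval

namespace Pool.Agent.Q192.IA

variable {𝕜 X : Type*} [RCLike 𝕜] [NormedAddCommGroup X] [NormedSpace 𝕜 X]

/-- station `n` -/
def st (n : ℕ) : Om := fun j => decide (j < n)
/-- the last station -/
def tp : Om := fun _ => true
/-- all stations -/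
def Sts : Set Om := {a | ∀ j, a (j + 1) = true → a j = true}

lemma st_mem (n : ℕ) : st n ∈ Sts := by
  intro j hj
  simp only [st, decide_eq_true_eq] at hj ⊢
  omega

lemma tp_mem : tp ∈ Sts := fun _ _ => rfl

lemma st_ne_tp (n : ℕ) : st n ≠ tp := by
  intro h
  have := congrFun h n
  simp [st, tp] at this

lemma st_injective : Function.Injective st := by
  intro m n h
  by_contra hne
  rcases lt_or_gt_of_ne hne with h1 | h1
  · have := congrFun h m
    simp [st, h1] at this
  · have := congrFun h n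
    simp [st, h1] at this

lemma isClosed_Sts : IsClosed Sts := by
  have : Sts = ⋂ j, {a : Om | a (j + 1) = true → a j = true} := by
    ext a; simp [Sts]
  rw [this]
  refine isClosed_iInter fun j => ?_
  have : {a : Om | a (j + 1) = true → a j = true} =
      (fun a : Om => (a (j + 1), a j)) ⁻¹' {p | p.1 = true → p.2 = true} := rfl
  rw [this]
  exact (isClosed_discrete _).preimage ((continuous_apply _).prodMk (continuous_apply _))

lemma sts_cases {a : Om} (ha : a ∈ Sts) : a = tp ∨ ∃ n, a = st n := by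
  by_cases h : ∃ n, a n = false
  · right
    classical
    refine ⟨Nat.find h, ?_⟩
    funext j
    by_cases hj : j < Nat.find h
    · have := Nat.find_min h hj
      simp only [st, hj, decide_true]
      simpa using this
    · have h1 : ∀ k, a (Nat.find h + k) = false := by
        intro k
        induction k with
        | zero => exact Nat.find_spec h
        | succ k ih =>
          by_contra hcon
          rw [Bool.not_eq_false] at hcon
          have h4 : a (Nat.find h + k) = true := ha _ hcon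
          rw [ih] at h4
          exact absurd h4 (by simp)
      have h2 := h1 (j - Nat.find h)
      rw [Nat.add_sub_cancel' (not_lt.1 hj)] at h2
      simp only [st, hj, decide_false]
      exact h2
  · left
    push Not at h
    funext j
    have := h j
    simpa [tp] using this

lemma isOpen_coord (n : ℕ) (b : Bool) : IsOpen {a : Om | a n = b} := by
  have h : Continuous fun a : Om => a n := continuous_apply n
  exact (isOpen_discrete ({b} : Set Bool)).preimage h

lemma nhds_st (n : ℕ) : ∃ W : Set Om, IsOpen W ∧ st n ∈ W ∧ ∀ a ∈ W, a ∈ Sts → a = st n := by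
  refine ⟨{a | a n = false ∧ ∀ j < n, a j = true}, ?_, ?_, ?_⟩
  · have : {a : Om | a n = false ∧ ∀ j < n, a j = true} =
        {a : Om | a n = false} ∩ ⋂ j ∈ Finset.range n, {a : Om | a j = true} := by
      ext a; simp
    rw [this]
    refine IsOpen.inter ?_ (isOpen_biInter_finset fun j _ => ?_)
    · exact isOpen_coord n false
    · exact isOpen_coord j true
  · exact ⟨by simp [st], fun j hj => by simp [st, hj]⟩
  · rintro a ⟨h1, h2⟩ ha
    rcases sts_cases ha with rfl | ⟨m, rfl⟩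
    · simp [tp] at h1
    · have e1 : m ≤ n := by simpa [st] using h1
      rcases e1.lt_or_eq with h | h
      · have := h2 m h
        simp [st] at this
      · rw [h]

lemma nhds_tp (N : ℕ) : IsOpen {a : Om | a N = true} ∧ ∀ n, st n ∈ {a : Om | a N = true} → N < n := by
  refine ⟨isOpen_coord N true, fun n hn => ?_⟩
  have : st n N = true := hn
  simpa [st] using this

lemma tendsto_st : Tendsto st atTop (𝓝 tp) := by
  rw [tendsto_pi_nhds]
  intro j
  refine tendsto_const_nhds.congr' ?_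
  filter_upwards [eventually_gt_atTop j] with n hn
  simp [st, tp, hn]

open Classical in
/-- the vector of a station -/
noncomputable def vv (v : ℕ → StrongDual 𝕜 X) (a : Om) : StrongDual 𝕜 X :=
  if h : ∃ n, a = st n then v h.choose else 0

lemma vv_st (v : ℕ → StrongDual 𝕜 X) (n : ℕ) : vv v (st n) = v n := by
  have h : ∃ m, st n = st m := ⟨n, rfl⟩
  rw [vv, dif_pos h, ← st_injective h.choose_spec]

lemma vv_tp (v : ℕ → StrongDual 𝕜 X) : vv v tp = 0 := by
  have h : ¬ ∃ m, tp = st m := fun ⟨m, hm⟩ => st_ne_tp m hm.symm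
  rw [vv, dif_neg h]

lemma vv_continuousOn {v : ℕ → StrongDual 𝕜 X} {z : X}
    (hz : Tendsto (fun n => v n z) atTop (𝓝 0)) : ContinuousOn (fun a => vv v a z) Sts := by
  intro a ha
  rcases sts_cases ha with rfl | ⟨n, rfl⟩
  · rw [ContinuousWithinAt, vv_tp]
    change Tendsto _ _ (𝓝 0)
    rw [Metric.tendsto_nhds]
    intro ε hε
    obtain ⟨N, hN⟩ := eventually_atTop.1 ((Metric.tendsto_nhds.1 hz) ε hε)
    have h1 := nhds_tp N
    have h2 : {a : Om | a N = true} ∈ 𝓝[Sts] tp :=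
      mem_nhdsWithin_of_mem_nhds (h1.1.mem_nhds rfl)
    filter_upwards [h2, self_mem_nhdsWithin] with a ha1 ha2
    rcases sts_cases ha2 with rfl | ⟨n, rfl⟩
    · rw [vv_tp]; simpa using hε
    · rw [vv_st]; exact hN n (h1.2 n ha1).le
  · obtain ⟨W, hW1, hW2, hW3⟩ := nhds_st n
    refine ContinuousWithinAt.congr_of_eventuallyEq (f := fun _ => vv v (st n) z)
      continuousWithinAt_const ?_ rfl
    filter_upwards [mem_nhdsWithin_of_mem_nhds (hW1.mem_nhds hW2), self_mem_nhdsWithin]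
      with a ha1 ha2
    rw [hW3 a ha1 ha2]

/-- the index set -/
def KK (C : ℕ → Set Om) (Cinf : Set Om) : Set (Om × Om) :=
  {p | (∃ n, p.1 = st n ∧ p.2 ∈ C n) ∨ (p.1 = tp ∧ p.2 ∈ Cinf)}

lemma isClosed_KK {C : ℕ → Set Om} {Cinf : Set Om} (hC : ∀ n, IsClosed (C n))
    (hCinf : IsClosed Cinf) (hsub : ∀ n, C (n + 1) ⊆ Cinf) : IsClosed (KK C Cinf) := by
  refine isClosed_of_closure_subset fun p hp => ?_
  have hfst : KK C Cinf ⊆ Sts ×ˢ univ := by
    rintro q (⟨n, h, -⟩ | ⟨h, -⟩)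
    · exact ⟨h ▸ st_mem n, mem_univ _⟩
    · exact ⟨h ▸ tp_mem, mem_univ _⟩
  have hp1 : p.1 ∈ Sts :=
    (closure_minimal hfst (isClosed_Sts.prod isClosed_univ) hp).1
  rcases sts_cases hp1 with h | ⟨n, h⟩
  · -- the last station
    have h1 := nhds_tp 0
    have h2 : IsOpen ({a : Om | a 0 = true} ×ˢ (univ : Set Om)) := h1.1.prod isOpen_univ
    have h3 : p ∈ closure (({a : Om | a 0 = true} ×ˢ (univ : Set Om)) ∩ KK C Cinf) :=
      h2.inter_closure ⟨⟨by rw [h]; rfl, mem_univ _⟩, hp⟩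
    have h4 : ({a : Om | a 0 = true} ×ˢ (univ : Set Om)) ∩ KK C Cinf ⊆ univ ×ˢ Cinf := by
      rintro q ⟨hq1, ⟨n, hq2, hq3⟩ | ⟨hq2, hq3⟩⟩
      · have h5 : 0 < n := h1.2 n (hq2 ▸ hq1.1)
        obtain ⟨m, rfl⟩ := Nat.exists_eq_succ_of_ne_zero h5.ne'
        exact ⟨mem_univ _, hsub m hq3⟩
      · exact ⟨mem_univ _, hq3⟩
    have h5 := closure_minimal h4 (isClosed_univ.prod hCinf) h3
    exact Or.inr ⟨h, h5.2⟩
  · obtain ⟨W, hW1, hW2, hW3⟩ := nhds_st n
    have h2 : IsOpen (W ×ˢ (univ : Set Om)) := hW1.prod isOpen_univ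
    have h3 : p ∈ closure ((W ×ˢ (univ : Set Om)) ∩ KK C Cinf) :=
      h2.inter_closure ⟨⟨by rw [h]; exact hW2, mem_univ _⟩, hp⟩
    have h4 : (W ×ˢ (univ : Set Om)) ∩ KK C Cinf ⊆ univ ×ˢ C n := by
      rintro q ⟨hq1, ⟨m, hq2, hq3⟩ | ⟨hq2, hq3⟩⟩
      · have h5 : st m = st n := hW3 _ (hq2 ▸ hq1.1) (st_mem m)
        rw [st_injective h5] at hq3
        exact ⟨mem_univ _, hq3⟩
      · have h5 : tp = st n := hW3 _ (hq2 ▸ hq1.1) tp_mem
        exact absurd h5.symm (st_ne_tp n)
    have h5 := closure_minimal h4 (isClosed_univ.prod (hC n)) h3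
    exact Or.inl ⟨n, h, h5.2⟩

/-- the operator obtained by linear interpolation on the gaps -/
theorem exists_T {γ : Om × Om → ℝ} (hγc : Continuous γ) (hγi : Function.Injective γ)
    (hγm : ∀ p, γ p ∈ Icc (0 : ℝ) 1) {K : Set (Om × Om)} (hK : IsClosed K)
    (mu : Om × Om → StrongDual 𝕜 X) {C : ℝ} (hC0 : 0 ≤ C) (hC : ∀ p ∈ K, ‖mu p‖ ≤ C)
    (hmu : ∀ z, ContinuousOn (fun p => mu p z) K) :
    ∃ T : X →L[𝕜] C(I, 𝕜), (∀ t, ‖cv T t‖ ≤ C) ∧ (∀ p ∈ K, cv T ⟨γ p, hγm p⟩ = mu p) ∧
      ∀ (t : I) (z : X) (w : 𝕜) (κ : ℝ), 0 < κ → κ ≤ RCLike.re (w * cv T t z) →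
        ∃ p ∈ K, κ ≤ RCLike.re (w * mu p z) ∧
          ∀ q ∈ K, ¬ (((t : ℝ) < γ q ∧ γ q < γ p) ∨ (γ p < γ q ∧ γ q < t)) := by
  classical
  have hemb : IsClosedEmbedding γ := hγc.isClosedEmbedding hγi
  have hinv : ∀ p, Function.invFun γ (γ p) = p := Function.leftInverse_invFun hγi
  obtain ⟨K', hK'⟩ : ∃ K' : Set ℝ, K' = γ '' K ∪ {-1, 2} := ⟨_, rfl⟩
  have hcl1 : IsClosed (γ '' K) := hemb.isClosedMap _ hK
  have hcl2 : IsClosed ({-1, 2} : Set ℝ) := (Set.toFinite _).isClosed
  have hcl : IsClosed K' := by rw [hK']; exact hcl1.union hcl2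
  have hA : (-1 : ℝ) ∈ K' := by rw [hK']; right; simp
  have hB : (2 : ℝ) ∈ K' := by rw [hK']; right; simp
  obtain ⟨f, hf⟩ : ∃ f : ℝ → StrongDual 𝕜 X, f = fun s => if s ∈ γ '' K then
    mu (Function.invFun γ s) else 0 := ⟨_, rfl⟩
  have hf1 : ∀ p ∈ K, f (γ p) = mu p := by
    intro p hp
    rw [hf]
    simp only
    rw [if_pos ⟨p, hp, rfl⟩, hinv]
  have hf2 : ∀ s ∉ γ '' K, f s = 0 := by
    intro s hs
    rw [hf]
    simp only
    rw [if_neg hs]
  have hf3 : ∀ s ∈ K', (∃ p ∈ K, s = γ p ∧ f s = mu p) ∨ f s = 0 := by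
    intro s _
    by_cases h : s ∈ γ '' K
    · obtain ⟨p, hp, rfl⟩ := h
      exact Or.inl ⟨p, hp, rfl, hf1 p hp⟩
    · exact Or.inr (hf2 s h)
  have hfC : ∀ s ∈ K', ‖f s‖ ≤ C := by
    intro s hs
    rcases hf3 s hs with ⟨p, hp, -, h⟩ | h
    · rw [h]; exact hC p hp
    · rw [h, norm_zero]; exact hC0
  have hfc : ∀ z, ContinuousOn (fun s => f s z) K' := by
    intro z
    rw [hK']
    refine ContinuousOn.union_of_isClosed ?_ ?_ hcl1 hcl2
    · have h1 : ContinuousOn (Function.invFun γ) (range γ) := by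
        rw [continuousOn_iff_isClosed]
        intro F hF
        refine ⟨γ '' F, hemb.isClosedMap _ hF, ?_⟩
        ext s
        constructor
        · rintro ⟨h2, p, rfl⟩
          rw [mem_preimage, hinv] at h2
          exact ⟨⟨p, h2, rfl⟩, p, rfl⟩
        · rintro ⟨⟨p, hp, rfl⟩, h3⟩
          exact ⟨by rw [mem_preimage, hinv]; exact hp, h3⟩
      have h2 : ContinuousOn (fun s => mu (Function.invFun γ s) z) (γ '' K) := by
        refine (hmu z).comp (h1.mono (image_subset_range _ _)) ?_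
        rintro _ ⟨p, hp, rfl⟩
        rw [hinv]
        exact hp
      refine h2.congr fun s hs => ?_
      obtain ⟨p, hp, rfl⟩ := hs
      simp only [hf1 p hp, hinv]
    · refine (continuousOn_const (c := (0 : 𝕜))).congr fun s hs => ?_
      have : s ∉ γ '' K := by
        rintro ⟨p, -, rfl⟩
        have h1 := hγm p
        rcases hs with h | h
        · rw [h] at h1; linarith [h1.1]
        · rw [mem_singleton_iff.1 h] at h1; linarith [h1.2]
      simp only [hf2 s this]
      rfl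
  have hev : ∀ t z, (gi 𝕜 K' f t : StrongDual 𝕜 X) z = gi 𝕜 K' (fun s => f s z) t := by
    intro t z
    rfl
  have hI : ∀ t : I, (-1 : ℝ) ≤ t ∧ (t : ℝ) ≤ 2 := fun t => by
    have h1 := t.2.1
    have h2 := t.2.2
    constructor <;> linarith
  obtain ⟨T, hT⟩ := exists_op (fun t : I => gi 𝕜 K' f t) (C := C)
    (fun t => gi_norm_le hcl hA hB hfC (hI t).1 (hI t).2) (fun z => by
      have h1 := gi_continuousOn (𝕜 := 𝕜) hcl hA hB (hfc z) (C := C * ‖z‖) (fun s hs =>
        ((f s).le_opNorm z).trans (mul_le_mul_of_nonneg_right (hfC s hs) (norm_nonneg _)))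
      have h2 : Continuous fun t : I => gi 𝕜 K' (fun s => f s z) (t : ℝ) :=
        h1.comp_continuous continuous_subtype_val fun t => ⟨(hI t).1, (hI t).2⟩
      exact h2)
  refine ⟨T, fun t => ?_, fun p hp => ?_, fun t z w κ hκ h => ?_⟩
  · rw [hT]; exact gi_norm_le hcl hA hB hfC (hI t).1 (hI t).2
  · rw [hT]
    have h1 : γ p ∈ K' := by rw [hK']; exact Or.inl ⟨p, hp, rfl⟩
    change gi 𝕜 K' f (γ p) = _
    rw [gi_eq 𝕜 f h1, hf1 p hp]
  · rw [hT] at h
    have e1 := lo_mem hcl hA (hI t).1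
    have e2 := hi_mem hcl hB (hI t).2
    have e3 := wt_mem hcl hA hB (hI t).1 (hI t).2
    have h2 : RCLike.re (w * (gi 𝕜 K' f (t : ℝ) : StrongDual 𝕜 X) z) =
        (1 - wt K' t) * RCLike.re (w * f (lo K' t) z) + wt K' t * RCLike.re (w * f (hi K' t) z) := by
      rw [hev, gi]
      have : w * (((1 - wt K' t : ℝ) : 𝕜) • f (lo K' t) z + ((wt K' t : ℝ) : 𝕜) • f (hi K' t) z) =
          ((1 - wt K' t : ℝ) : 𝕜) * (w * f (lo K' t) z) +
          ((wt K' t : ℝ) : 𝕜) * (w * f (hi K' t) z) := by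
        simp only [smul_eq_mul]; ring
      rw [this, map_add, RCLike.re_ofReal_mul, RCLike.re_ofReal_mul]
    rw [h2] at h
    have h3 : κ ≤ RCLike.re (w * f (lo K' t) z) ∨ κ ≤ RCLike.re (w * f (hi K' t) z) := by
      by_contra hcon
      push Not at hcon
      obtain ⟨c1, c2⟩ := hcon
      rcases e3.1.lt_or_eq with h4 | h4
      · nlinarith [e3.2]
      · rw [← h4] at h
        linarith
    have hmem : ∀ q ∈ K, γ q ∈ K' := fun q hq => by rw [hK']; exact Or.inl ⟨q, hq, rfl⟩
    rcases h3 with h3 | h3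
    · rcases hf3 _ e1.1 with ⟨p, hp, h4, h5⟩ | h4
      · refine ⟨p, hp, by rw [← h5]; exact h3, fun q hq hcon => ?_⟩
        rw [← h4] at hcon
        rcases hcon with ⟨h6, h7⟩ | ⟨h6, h7⟩
        · linarith [e1.2.1]
        · linarith [e1.2.2 _ (hmem q hq) h7.le]
      · rw [h4] at h3
        exfalso
        have : RCLike.re (w * (0 : StrongDual 𝕜 X) z) = 0 := by simp
        linarith
    · rcases hf3 _ e2.1 with ⟨p, hp, h4, h5⟩ | h4
      · refine ⟨p, hp, by rw [← h5]; exact h3, fun q hq hcon => ?_⟩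
        rw [← h4] at hcon
        rcases hcon with ⟨h6, h7⟩ | ⟨h6, h7⟩
        · linarith [e2.2.2 _ (hmem q hq) h6.le]
        · linarith [e2.2.1]
      · rw [h4] at h3
        exfalso
        have : RCLike.re (w * (0 : StrongDual 𝕜 X) z) = 0 := by simp
        linarith

end Pool.Agent.Q192.IA
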