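import Pool.Agent.Q192.IA.Defs

/-!
# Uniform convexity of the dual of a uniformly smooth space
-/

open Filter Topology Set

namespace Pool.Agent.Q192.IA

variable {𝕜 X : Type*} [RCLike 𝕜] [NormedAddCommGroup X] [NormedSpace 𝕜 X]

lemma smooth_ineq (hX : UniformlySmooth 𝕜 X) {ε : ℝ} (hε : 0 < ε) :
    ∃ t : ℝ, 0 < t ∧ t ≤ 1 ∧ ∀ x y : X, ‖x‖ = 1 → ‖y‖ = 1 →
      ‖x + (t : 𝕜) • y‖ + ‖x - (t : 𝕜) • y‖ ≤ 2 + ε * t := by
  have h1 : ∀ᶠ t : ℝ in 𝓝[>] 0, rho 𝕜 X t / t < ε / 2 :=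
    hX.eventually (gt_mem_nhds (by positivity))
  have h2 : ∀ᶠ t : ℝ in 𝓝[>] 0, t < 1 :=
    mem_nhdsWithin_of_mem_nhds (gt_mem_nhds (by norm_num))
  have h3 : ∀ᶠ t : ℝ in 𝓝[>] 0, 0 < t := self_mem_nhdsWithin
  obtain ⟨t, h4, h5, h6⟩ := (h1.and (h2.and h3)).exists
  refine ⟨t, h6, h5.le, fun x y hx hy => ?_⟩
  have hbdd : BddAbove {r : ℝ | ∃ x y : X, ‖x‖ = 1 ∧ ‖y‖ = 1 ∧
      r = (‖x + (t : 𝕜) • y‖ + ‖x - (t : 𝕜) • y‖) / 2 - 1} := by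
    refine ⟨t, ?_⟩
    rintro r ⟨u, v, hu, hv, rfl⟩
    have e1 := norm_add_le u ((t : 𝕜) • v)
    have e2 := norm_sub_le u ((t : 𝕜) • v)
    have e3 : ‖(t : 𝕜) • v‖ = t := by
      rw [norm_smul, hv, mul_one, RCLike.norm_ofReal, abs_of_pos h6]
    rw [e3, hu] at e1 e2
    linarith
  have h7 : (‖x + (t : 𝕜) • y‖ + ‖x - (t : 𝕜) • y‖) / 2 - 1 ≤ rho 𝕜 X t :=
    le_csSup hbdd ⟨x, y, hx, hy, rfl⟩
  rw [div_lt_iff₀ h6] at h4
  linarith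

lemma exists_unimod (a : 𝕜) : ∃ u : 𝕜, ‖u‖ = 1 ∧ u * a = ((‖a‖ : ℝ) : 𝕜) := by
  by_cases h : a = 0
  · exact ⟨1, by simp, by simp [h]⟩
  · refine ⟨(‖a‖ : 𝕜) / a, ?_, ?_⟩
    · rw [norm_div, RCLike.norm_ofReal, abs_norm, div_self (norm_ne_zero_iff.2 h)]
    · rw [div_mul_cancel₀ _ h]

lemma opNorm_le_of_unit (f : StrongDual 𝕜 X) {M : ℝ} (hM : 0 ≤ M)
    (h : ∀ x, ‖x‖ = 1 → ‖f x‖ ≤ M) : ‖f‖ ≤ M := by
  refine f.opNorm_le_bound hM fun x => ?_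
  by_cases hx : x = 0
  · simp [hx]
  · have h1 : ‖x‖ ≠ 0 := norm_ne_zero_iff.2 hx
    have h2 := h (((‖x‖ : ℝ) : 𝕜)⁻¹ • x) (by
      rw [norm_smul, norm_inv, RCLike.norm_ofReal, abs_norm, inv_mul_cancel₀ h1])
    rw [map_smul, norm_smul, norm_inv, RCLike.norm_ofReal, abs_norm, inv_mul_le_iff₀
      (norm_pos_iff.2 hx)] at h2
    linarith [mul_comm M ‖x‖]

lemma dual_ineq {t δ : ℝ} (ht : 0 < t) (hδ : 0 ≤ δ)
    (h : ∀ x y : X, ‖x‖ = 1 → ‖y‖ = 1 →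
      ‖x + (t : 𝕜) • y‖ + ‖x - (t : 𝕜) • y‖ ≤ 2 + δ)
    {f g : StrongDual 𝕜 X} (hf : ‖f‖ ≤ 1) (hg : ‖g‖ ≤ 1) :
    ‖f + g‖ + t * ‖f - g‖ ≤ 2 + δ := by
  have key : ∀ x y : X, ‖x‖ = 1 → ‖y‖ = 1 → ‖(f + g) x‖ + t * ‖(f - g) y‖ ≤ 2 + δ := by
    intro x y hx hy
    obtain ⟨u, hu, hu'⟩ := exists_unimod ((f + g) x)
    obtain ⟨v, hv, hv'⟩ := exists_unimod ((f - g) y)
    have e1 := h (u • x) (v • y) (by rw [norm_smul, hu, hx, one_mul])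
      (by rw [norm_smul, hv, hy, one_mul])
    have e2 : f (u • x + (t : 𝕜) • v • y) + g (u • x - (t : 𝕜) • v • y) =
        ((‖(f + g) x‖ + t * ‖(f - g) y‖ : ℝ) : 𝕜) := by
      have : f (u • x + (t : 𝕜) • v • y) + g (u • x - (t : 𝕜) • v • y) =
        u * ((f + g) x) + t * (v * ((f - g) y)) := by
        simp only [map_add, map_sub, map_smul, smul_eq_mul]
        change _ = u * (f x + g x) + t * (v * (f y - g y))
        ring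
      rw [this, hu', hv']
      push_cast
      ring
    have e3 := norm_add_le (f (u • x + (t : 𝕜) • v • y)) (g (u • x - (t : 𝕜) • v • y))
    rw [e2, RCLike.norm_ofReal, abs_of_nonneg (by positivity)] at e3
    have e4 : ‖f (u • x + (t : 𝕜) • v • y)‖ ≤ ‖u • x + (t : 𝕜) • v • y‖ := by
      refine (f.le_opNorm _).trans ?_
      nlinarith [norm_nonneg (u • x + (t : 𝕜) • v • y)]
    have e5 : ‖g (u • x - (t : 𝕜) • v • y)‖ ≤ ‖u • x - (t : 𝕜) • v • y‖ := by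
      refine (g.le_opNorm _).trans ?_
      nlinarith [norm_nonneg (u • x - (t : 𝕜) • v • y)]
    linarith
  by_cases hne : ∃ x : X, ‖x‖ = 1
  · obtain ⟨x₀, hx₀⟩ := hne
    have h1 : ∀ y, ‖y‖ = 1 → ‖f + g‖ ≤ 2 + δ - t * ‖(f - g) y‖ := by
      intro y hy
      refine opNorm_le_of_unit _ ?_ ?_
      · have := key x₀ y hx₀ hy
        linarith [norm_nonneg ((f + g) x₀)]
      · intro x hx
        linarith [key x y hx hy]
    have h2 : ‖f - g‖ ≤ (2 + δ - ‖f + g‖) / t := by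
      refine opNorm_le_of_unit _ ?_ ?_
      · refine div_nonneg ?_ ht.le
        have := norm_add_le f g
        linarith
      · intro y hy
        rw [le_div_iff₀ ht]
        linarith [h1 y hy]
    rw [le_div_iff₀ ht] at h2
    linarith
  · push Not at hne
    have h1 : ‖f + g‖ ≤ 0 := opNorm_le_of_unit _ le_rfl fun x hx => absurd hx (hne x)
    have h2 : ‖f - g‖ ≤ 0 := opNorm_le_of_unit _ le_rfl fun x hx => absurd hx (hne x)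
    nlinarith

/-- uniform convexity of the dual, in the form in which it is used -/
lemma uc (hX : UniformlySmooth 𝕜 X) {ω : ℝ} (hω : 0 < ω) :
    ∃ κ : ℝ, 0 < κ ∧ κ ≤ 1 / 4 ∧ ∀ f g : StrongDual 𝕜 X, ‖f‖ ≤ 1 + κ → ‖g‖ ≤ 1 + κ →
      ∀ x : X, ‖x‖ ≤ 1 → 1 - κ ≤ RCLike.re (f x) → 1 - κ ≤ RCLike.re (g x) → ‖f - g‖ ≤ ω := by
  obtain ⟨t, ht, ht1, h⟩ := smooth_ineq (𝕜 := 𝕜) (X := X) hX (ε := ω / 4) (by positivity)
  obtain ⟨κ, hκ0, hκ1, hκ2⟩ : ∃ κ : ℝ, 0 < κ ∧ κ ≤ 1 / 4 ∧ κ ≤ t * ω / 32 :=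
    ⟨min (1 / 4) (t * ω / 32), lt_min (by norm_num) (by positivity), min_le_left _ _,
      min_le_right _ _⟩
  refine ⟨κ, hκ0, hκ1, fun f g hf hg x hx hfx hgx => ?_⟩
  have hp : (0 : ℝ) < 1 + κ := by linarith
  obtain ⟨s, hs⟩ : ∃ s : 𝕜, s = (((1 + κ)⁻¹ : ℝ) : 𝕜) := ⟨_, rfl⟩
  have hsn : ‖s‖ = (1 + κ)⁻¹ := by
    rw [hs, RCLike.norm_ofReal, abs_of_pos (by positivity)]
  have hF : ‖s • f‖ ≤ 1 := by
    rw [norm_smul, hsn, inv_mul_le_iff₀ hp]; linarith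
  have hG : ‖s • g‖ ≤ 1 := by
    rw [norm_smul, hsn, inv_mul_le_iff₀ hp]; linarith
  have h1 := dual_ineq ht (by positivity : (0 : ℝ) ≤ ω / 4 * t) h hF hG
  have h2 : 2 - 4 * κ ≤ ‖s • f + s • g‖ := by
    have e1 : ‖(s • f + s • g) x‖ ≤ ‖s • f + s • g‖ := by
      refine ((s • f + s • g).le_opNorm x).trans ?_
      nlinarith [norm_nonneg (s • f + s • g)]
    have e2 : RCLike.re ((s • f + s • g) x) = (1 + κ)⁻¹ * (RCLike.re (f x) + RCLike.re (g x)) := by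
      have e5 : (s • f + s • g) x = s * (f x + g x) := by
        change s * f x + s * g x = _
        ring
      rw [e5, hs, RCLike.re_ofReal_mul, map_add]
    have e3 := RCLike.re_le_norm ((s • f + s • g) x)
    have e4 : 2 - 4 * κ ≤ (1 + κ)⁻¹ * (RCLike.re (f x) + RCLike.re (g x)) := by
      rw [← div_eq_inv_mul, le_div_iff₀ hp]
      nlinarith
    linarith
  have h3 : t * ‖s • f - s • g‖ ≤ ω / 4 * t + 4 * κ := by linarith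
  rw [show s • f - s • g = s • (f - g) from (smul_sub s f g).symm, norm_smul, hsn] at h3
  have h4 : t * ‖f - g‖ ≤ (1 + κ) * (ω / 4 * t + 4 * κ) := by
    have := mul_le_mul_of_nonneg_left h3 hp.le
    have e : (1 + κ) * (t * ((1 + κ)⁻¹ * ‖f - g‖)) = t * ‖f - g‖ := by
      field_simp
    linarith
  have h5 : (1 + κ) * (ω / 4 * t + 4 * κ) ≤ t * ω := by
    nlinarith [mul_pos ht hω]
  have h6 : t * ‖f - g‖ ≤ t * ω := h4.trans h5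
  exact le_of_mul_le_mul_left h6 ht

end Pool.Agent.Q192.IA
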